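import Pool.Agent.V7H60.GC.Loc

set_option autoImplicit false

/-!
# Embeddings of the complex numbers at which given numbers are integral
-/

namespace Pool.Agent.V7H60.GC

open Pool.Agent.H936R2 Pool.Agent.TH838.DS

theorem norm_le_of_root {K : Type} [NormedField K] [IsUltrametricDist K] (F : Polynomial K) (y : K)
    (h0 : F.eval y = 0) (hc : ∀ k, ‖F.coeff k‖ ≤ 1) (hl : ‖F.leadingCoeff‖ = 1) : ‖y‖ ≤ 1 := by
  by_contra h
  rw [not_le] at h
  rw [Polynomial.eval_eq_sum_range, Finset.sum_range_succ] at h0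
  have e1 : ‖F.coeff F.natDegree * y ^ F.natDegree‖ = ‖y‖ ^ F.natDegree := by
    rw [norm_mul, norm_pow]
    change ‖F.leadingCoeff‖ * _ = _
    rw [hl, one_mul]
  have e2 : F.coeff F.natDegree * y ^ F.natDegree =
      -∑ k ∈ Finset.range F.natDegree, F.coeff k * y ^ k := by
    linear_combination h0
  rw [e2, norm_neg] at e1
  rcases Nat.eq_zero_or_pos F.natDegree with hn | hn
  · rw [hn] at e1
    simp at e1
  · obtain ⟨n, hn'⟩ := Nat.exists_eq_succ_of_ne_zero hn.ne'
    have e3 : ‖∑ k ∈ Finset.range F.natDegree, F.coeff k * y ^ k‖ ≤ ‖y‖ ^ n := by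
      apply IsUltrametricDist.norm_sum_le_of_forall_le_of_nonneg (by positivity)
      intro k hk
      rw [Finset.mem_range] at hk
      rw [norm_mul, norm_pow]
      calc ‖F.coeff k‖ * ‖y‖ ^ k ≤ 1 * ‖y‖ ^ k :=
            mul_le_mul_of_nonneg_right (hc k) (by positivity)
        _ = ‖y‖ ^ k := one_mul _
        _ ≤ ‖y‖ ^ n := pow_le_pow_right₀ h.le (by omega)
    rw [e1, hn', Nat.succ_eq_add_one] at e3
    exact absurd e3 (not_le.2 (pow_lt_pow_right₀ h (Nat.lt_succ_self n)))

theorem exists_emb_int {n : ℕ} (α : Fin n → ℂ) : ∃ B : ℕ, ∀ (p : ℕ) [Fact p.Prime], B < p →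
    ∃ τ : ℂ →+* PadicAlgCl p, ∀ i, ‖τ (α i)‖ ≤ 1 := by
  classical
  obtain ⟨ι, b, hb⟩ := exists_isTranscendenceBasis' ℤ ℂ
  have halg := hb.isAlgebraic
  have h1 : ∀ i, ∃ P : Polynomial (Algebra.adjoin ℤ (Set.range b)),
      P ≠ 0 ∧ Polynomial.aeval (α i) P = 0 := fun i => halg.isAlgebraic (α i)
  choose P hP0 hP using h1
  let D : Fin n → MvPolynomial ι ℤ := fun i => hb.1.aevalEquiv.symm (P i).leadingCoeff
  have hD : ∏ i, D i ≠ 0 := by
    rw [Finset.prod_ne_zero_iff]
    intro i _ h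
    have h2 : (P i).leadingCoeff = 0 := by
      apply hb.1.aevalEquiv.symm.injective
      rw [map_zero]
      exact h
    exact Polynomial.leadingCoeff_ne_zero.2 (hP0 i) h2
  obtain ⟨c, hc⟩ : ∃ c : ι → ℤ, MvPolynomial.eval c (∏ i, D i) ≠ 0 := by
    by_contra hcon
    push Not at hcon
    apply hD
    apply MvPolynomial.funext
    intro x
    rw [hcon x, map_zero]
  refine ⟨(MvPolynomial.eval c (∏ i, D i)).natAbs, fun p hp hB => ?_⟩
  obtain ⟨τ0⟩ := exists_embedding p
  have hpn : ‖(p : PadicAlgCl p)‖ < 1 := by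
    have h2 : (p : PadicAlgCl p) = ((p : ℚ_[p]) : PadicAlgCl p) := by simp
    rw [h2, PadicAlgCl.norm_extends]
    exact Padic.norm_p_lt_one
  have hp0 : (p : PadicAlgCl p) ≠ 0 := Nat.cast_ne_zero.2 hp.out.ne_zero
  have hn : ∀ j : ι, ∃ m : ℕ, ‖(p : PadicAlgCl p) ^ m * τ0 (b j)‖ < 1 := by
    intro j
    have h2 : Filter.Tendsto (fun m : ℕ => ‖(p : PadicAlgCl p) ^ m * τ0 (b j)‖) Filter.atTop
        (nhds 0) := by
      have h3 : (fun m : ℕ => ‖(p : PadicAlgCl p) ^ m * τ0 (b j)‖) =
          fun m => ‖(p : PadicAlgCl p)‖ ^ m * ‖τ0 (b j)‖ := by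
        funext m
        rw [norm_mul, norm_pow]
      rw [h3, ← zero_mul ‖τ0 (b j)‖]
      exact (tendsto_pow_atTop_nhds_zero_of_lt_one (norm_nonneg _) hpn).mul_const _
    exact (h2.eventually_lt_const one_pos).exists
  choose m hm using hn
  let b' : ι → PadicAlgCl p := fun j => (c j : PadicAlgCl p) + (p : PadicAlgCl p) ^ m j * τ0 (b j)
  have hτb : AlgebraicIndependent ℤ (fun j => τ0 (b j)) :=
    hb.1.map' (f := τ0.toIntAlgHom) τ0.injective
  have hb' : Function.Injective (MvPolynomial.aeval (R := ℤ) b') := by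
    rw [injective_iff_map_eq_zero]
    intro F hF
    let G : MvPolynomial ι ℤ := MvPolynomial.bind₁
      (fun j => MvPolynomial.C (c j) + MvPolynomial.C ((p : ℤ) ^ m j) * MvPolynomial.X j) F
    have hG : ∀ {A : Type} [CommRing A] (x : ι → A), MvPolynomial.aeval x G =
        MvPolynomial.aeval (fun j => (c j : A) + (p : A) ^ m j * x j) F := by
      intro A _ x
      rw [MvPolynomial.aeval_bind₁]
      congr 2
      funext j
      simp
    have hG0 : G = 0 := by
      apply hτb
      rw [map_zero]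
      exact (hG (fun j => τ0 (b j))).trans hF
    apply MvPolynomial.map_injective (Int.castRingHom ℚ) (RingHom.injective_int _)
    rw [map_zero]
    apply MvPolynomial.funext
    intro y
    rw [map_zero, MvPolynomial.eval_map]
    have h2 := hG (fun j => (y j - c j) / (p : ℚ) ^ m j)
    rw [hG0, map_zero] at h2
    have h3 : (fun j => (c j : ℚ) + (p : ℚ) ^ m j * ((y j - c j) / (p : ℚ) ^ m j)) = y := by
      funext j
      have h4 : (p : ℚ) ^ m j ≠ 0 := pow_ne_zero _ (Nat.cast_ne_zero.2 hp.out.ne_zero)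
      field_simp
      ring
    rw [h3] at h2
    rw [h2]
    rfl
  -- integrality
  let b'' : ι → unitBall (PadicAlgCl p) := fun j => ⟨b' j, by
    rw [mem_unitBall]
    refine (IsUltrametricDist.norm_add_le_max _ _).trans (max_le ?_ (hm j).le)
    have h2 : (c j : PadicAlgCl p) = ((c j : ℚ_[p]) : PadicAlgCl p) := by simp
    rw [h2, PadicAlgCl.norm_extends]
    exact Padic.norm_int_le_one _⟩
  have hsub : ∀ F : MvPolynomial ι ℤ, MvPolynomial.aeval b' F =
      ((MvPolynomial.aeval b'' F : unitBall (PadicAlgCl p)) : PadicAlgCl p) := by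
    intro F
    induction F using MvPolynomial.induction_on with
    | C a => simp
    | add f g hf hg => rw [map_add, map_add, hf, hg]; rfl
    | mul_X f j hf => rw [map_mul, map_mul, hf, MvPolynomial.aeval_X, MvPolynomial.aeval_X]; rfl
  have hres : ∀ F : MvPolynomial ι ℤ, res (PadicAlgCl p) (MvPolynomial.aeval b'' F) =
      ((MvPolynomial.eval c F : ℤ) : ResF (PadicAlgCl p)) := by
    intro F
    induction F using MvPolynomial.induction_on with
    | C a => simp
    | add f g hf hg => rw [map_add, map_add, hf, hg, map_add, Int.cast_add]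
    | mul_X f j hf =>
      rw [map_mul, map_mul, hf, MvPolynomial.aeval_X, map_mul, MvPolynomial.eval_X, Int.cast_mul]
      congr 1
      have h2 : b'' j = ((c j : ℤ) : unitBall (PadicAlgCl p)) +
          ⟨(p : PadicAlgCl p) ^ m j * τ0 (b j), mem_unitBall.2 (hm j).le⟩ := by
        apply Subtype.ext
        simp [b'', b']
      rw [h2, map_add, map_intCast]
      have h3 : res (PadicAlgCl p) ⟨(p : PadicAlgCl p) ^ m j * τ0 (b j),
          mem_unitBall.2 (hm j).le⟩ = 0 := by
        rw [res_eq_zero_iff]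
        exact hm j
      rw [h3, add_zero]
  -- the embedding
  let f0 : Algebra.adjoin ℤ (Set.range b) →+* PadicAlgCl p :=
    ((MvPolynomial.aeval (R := ℤ) b' : MvPolynomial ι ℤ →ₐ[ℤ] PadicAlgCl p) :
      MvPolynomial ι ℤ →+* PadicAlgCl p).comp
      (hb.1.aevalEquiv.symm : Algebra.adjoin ℤ (Set.range b) →+* MvPolynomial ι ℤ)
  have hf0 : ∀ a, f0 a = MvPolynomial.aeval b' (hb.1.aevalEquiv.symm a) := fun a => rfl
  have hf0i : Function.Injective f0 := fun a a' h => hb.1.aevalEquiv.symm.injective (hb' h)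
  let _ : Algebra (Algebra.adjoin ℤ (Set.range b)) (PadicAlgCl p) := f0.toAlgebra
  have hfs : FaithfulSMul (Algebra.adjoin ℤ (Set.range b)) (PadicAlgCl p) :=
    (faithfulSMul_iff_algebraMap_injective _ _).2 hf0i
  let τ' : ℂ →ₐ[Algebra.adjoin ℤ (Set.range b)] PadicAlgCl p := IsAlgClosed.lift
  refine ⟨τ'.toRingHom, fun i => ?_⟩
  apply norm_le_of_root ((P i).map f0)
  · have h2 : Polynomial.aeval (τ' (α i)) (P i) = 0 := by
      rw [Polynomial.aeval_algHom_apply, hP i, map_zero]
    rw [Polynomial.eval_map]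
    exact h2
  · intro k
    rw [Polynomial.coeff_map, hf0, hsub]
    exact mem_unitBall.1 (MvPolynomial.aeval b'' (hb.1.aevalEquiv.symm ((P i).coeff k))).2
  · rw [Polynomial.leadingCoeff_map_of_injective hf0i, hf0, hsub]
    have h2 : res (PadicAlgCl p) (MvPolynomial.aeval b'' (D i)) ≠ 0 := by
      rw [hres]
      have hcp := charP_resF p
      rw [Ne, CharP.intCast_eq_zero_iff (ResF (PadicAlgCl p)) p]
      intro h3
      have h4 : (p : ℤ) ∣ MvPolynomial.eval c (∏ i, D i) := by
        rw [map_prod]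
        exact h3.trans (Finset.dvd_prod_of_mem _ (Finset.mem_univ i))
      have h5 := Int.natAbs_dvd_natAbs.2 h4
      rw [Int.natAbs_natCast] at h5
      exact absurd (Nat.le_of_dvd (Int.natAbs_pos.2 hc) h5) (by omega)
    rw [Ne, res_eq_zero_iff, not_lt] at h2
    exact le_antisymm (mem_unitBall.1 (MvPolynomial.aeval b'' (D i)).2) h2

end Pool.Agent.V7H60.GC
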