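import Pool.Agent.V7H60.GC.Fin
import Pool.Agent.V7H60.GC.Emb

set_option autoImplicit false

/-!
# Polynomials: the affine case
-/

namespace Pool.Agent.V7H60.GC

open MvPolynomial Pool.Agent.TH838.DS Pool.Agent.H936R2 Pool.Agent.H905R3.DML

/-- the map `x ↦ (f_i (x_(σ i)))` -/
noncomputable def amap {N : ℕ} (f : Fin N → Polynomial ℚ) (σ : Fin N → Fin N) (x : Fin N → ℂ) :
    Fin N → ℂ :=
  fun i => Polynomial.aeval (x (σ i)) (f i)

/-- the Dynamical Mordell-Lang property of an orbit -/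
def ADML {N : ℕ} (F : (Fin N → ℂ) → (Fin N → ℂ)) (α : Fin N → ℂ) : Prop :=
  ∀ S : Set (MvPolynomial (Fin N) ℂ), ∃ T : Finset (ℕ × ℕ),
    {k : ℕ | ∀ g ∈ S, eval (F^[k] α) g = 0} = {k : ℕ | ∃ q ∈ T, ∃ m : ℕ, k = q.1 * m + q.2}

/-- compositions -/
noncomputable def acomp {N : ℕ} (f : Fin N → Polynomial ℚ) : List (Fin N) → ℂ → ℂ
  | [] => fun y => y
  | i :: w => fun y => Polynomial.aeval (acomp f w y) (f i)

/-! ### Reduction to permutations -/

section perm

variable {N : ℕ} (f : Fin N → Polynomial ℚ)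

/-- the polynomials of the iterates -/
noncomputable def aitp (σ : Fin N → Fin N) : ℕ → Fin N → MvPolynomial (Fin N) ℂ
  | 0 => fun i => X i
  | k + 1 => fun i => Polynomial.aeval (aitp σ k (σ i)) (f i)

theorem eval_aeval_rat {A : Type} [CommRing A] [Algebra ℚ A] (φ : A →+* ℂ) (P : Polynomial ℚ)
    (a : A) : φ (Polynomial.aeval a P) = Polynomial.aeval (φ a) P := by
  rw [Polynomial.aeval_def, Polynomial.hom_eval₂, Polynomial.aeval_def]
  congr 1
  exact RingHom.ext_rat _ _

theorem eval_aitp (σ : Fin N → Fin N) (x : Fin N → ℂ) (k : ℕ) (i : Fin N) :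
    eval x (aitp f σ k i) = (amap f σ)^[k] x i := by
  induction k generalizing i with
  | zero => simp [aitp]
  | succ k ih =>
    rw [Function.iterate_succ_apply']
    change eval x (Polynomial.aeval (aitp f σ k (σ i)) (f i)) =
      Polynomial.aeval ((amap f σ)^[k] x (σ i)) (f i)
    rw [eval_aeval_rat, ih]

theorem aiter_agree (σ : Fin N → Fin N) (x y : Fin N → ℂ) (m : ℕ) (i : Fin N)
    (h : x (σ^[m] i) = y (σ^[m] i)) : (amap f σ)^[m] x i = (amap f σ)^[m] y i := by
  induction m generalizing i with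
  | zero => exact h
  | succ m ih =>
    rw [Function.iterate_succ_apply', Function.iterate_succ_apply']
    have h1 := ih (σ i) h
    simp only [amap]
    rw [h1]

/-- From permutations to arbitrary index maps. -/
theorem aff_of_perm (α : Fin N → ℂ)
    (h : ∀ π : Fin N → Fin N, Function.Surjective π → ADML (amap f π) α) (σ : Fin N → Fin N) :
    ADML (amap f σ) α := by
  classical
  obtain ⟨m, hm, hidem⟩ := Hm.exists_idem σ
  let π : Fin N → Fin N := fun i => if σ^[m] i = i then σ i else i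
  have hσJ : ∀ i, σ^[m] i = i → σ^[m] (σ i) = σ i := by
    intro i hi
    rw [← Function.iterate_succ_apply, Function.iterate_succ_apply', hi]
  have hinj : Function.Injective π := by
    intro i j hij
    by_cases hi : σ^[m] i = i <;> by_cases hj : σ^[m] j = j
    · simp only [π, if_pos hi, if_pos hj] at hij
      obtain ⟨c, rfl⟩ : ∃ c, m = c + 1 := ⟨m - 1, by omega⟩
      rw [Function.iterate_succ_apply] at hi hj
      rw [← hi, ← hj, hij]
    · simp only [π, if_pos hi, if_neg hj] at hij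
      exact absurd (hij ▸ hσJ i hi) hj
    · simp only [π, if_neg hi, if_pos hj] at hij
      exact absurd (hij ▸ hσJ j hj) hi
    · simpa only [π, if_neg hi, if_neg hj] using hij
  have hsurj : Function.Surjective π := Finite.surjective_of_injective hinj
  intro S
  have hG : ∀ k i, σ^[m] i = i → (amap f π)^[k] α i = (amap f σ)^[k] α i := by
    intro k
    induction k with
    | zero => intro i _; rfl
    | succ k ih =>
      intro i hi
      rw [Function.iterate_succ_apply', Function.iterate_succ_apply']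
      have h1 := ih (σ i) (hσJ i hi)
      simp only [amap, π, if_pos hi] at h1 ⊢
      rw [h1]
  have hF : ∀ k, (amap f σ)^[k + m] α = (amap f σ)^[m] ((amap f π)^[k] α) := by
    intro k
    rw [Nat.add_comm, Function.iterate_add_apply]
    funext i
    apply aiter_agree
    rw [hG k (σ^[m] i) (hidem i)]
  obtain ⟨T, hT⟩ := h π hsurj ((fun g => aeval (aitp f σ m) g) '' S)
  have hT' : ∀ k, (∀ g ∈ S, eval ((amap f σ)^[k + m] α) g = 0) ↔
      ∃ q ∈ T, ∃ n : ℕ, k = q.1 * n + q.2 := by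
    intro k
    have h1 : (∃ q ∈ T, ∃ n : ℕ, k = q.1 * n + q.2) ↔
        k ∈ {k : ℕ | ∀ g ∈ (fun g => aeval (aitp f σ m) g) '' S,
          eval ((amap f π)^[k] α) g = 0} := by
      rw [hT]
      rfl
    rw [h1]
    simp only [Set.mem_ofPred_eq, Set.forall_mem_image]
    apply forall₂_congr
    intro g _
    rw [Hm.eval_aeval, hF k]
    have h2 : (fun q => eval ((amap f π)^[k] α) (aitp f σ m q)) =
        (amap f σ)^[m] ((amap f π)^[k] α) := by
      funext q
      rw [eval_aitp]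
    rw [h2]
  refine ⟨T.image (fun q => (q.1, q.2 + m)) ∪
    ((Finset.range m).filter fun n => ∀ g ∈ S, eval ((amap f σ)^[n] α) g = 0).image
      (fun n => (0, n)), ?_⟩
  ext n
  simp only [Set.mem_ofPred_eq, Finset.mem_union, Finset.mem_image, Finset.mem_filter,
    Finset.mem_range]
  constructor
  · intro hn
    rcases Nat.lt_or_ge n m with hnm | hnm
    · exact ⟨(0, n), Or.inr ⟨n, ⟨hnm, hn⟩, rfl⟩, 0, by simp⟩
    · obtain ⟨k, rfl⟩ : ∃ k, n = k + m := ⟨n - m, by omega⟩
      obtain ⟨q, hq, c, hc⟩ := (hT' k).1 hn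
      refine ⟨(q.1, q.2 + m), Or.inl ⟨q, hq, rfl⟩, c, ?_⟩
      simp only
      omega
  · rintro ⟨q, hq | hq, c, hc⟩
    · obtain ⟨q', hq', rfl⟩ := hq
      simp only at hc
      have h1 : n = (q'.1 * c + q'.2) + m := by omega
      rw [h1]
      exact (hT' _).2 ⟨q', hq', c, rfl⟩
    · obtain ⟨n', ⟨_, hn'⟩, rfl⟩ := hq
      simp only [zero_mul, zero_add] at hc
      rw [hc]
      exact hn'

end perm

/-! ### Homogeneous coordinates -/

/-- homogeneous coordinates of a point of affine space -/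
def hc {N : ℕ} (x s : Fin N → ℂ) : Fin N × Fin 2 → ℂ := fun q => if q.2 = 0 then x q.1 * s q.1 else s q.1

theorem homogenize {N : ℕ} (g : MvPolynomial (Fin N) ℂ) :
    ∃ (G : MvPolynomial (Fin N × Fin 2) ℂ) (e : Fin N → ℕ), ∀ x s : Fin N → ℂ,
      eval (hc x s) G = (∏ i, s i ^ e i) * eval x g := by
  classical
  induction g using MvPolynomial.induction_on with
  | C a => exact ⟨C a, 0, fun x s => by simp⟩
  | add f g hf hg =>
    obtain ⟨F, e, hF⟩ := hf
    obtain ⟨G, e', hG⟩ := hg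
    refine ⟨F * (∏ i, X (i, 1) ^ e' i) + G * (∏ i, X (i, 1) ^ e i), fun i => e i + e' i,
      fun x s => ?_⟩
    have h1 : ∀ e : Fin N → ℕ, eval (hc x s) (∏ i, X ((i, 1) : Fin N × Fin 2) ^ e i) =
        ∏ i, s i ^ e i := by
      intro e
      rw [map_prod]
      refine Finset.prod_congr rfl fun i _ => ?_
      rw [map_pow, eval_X]
      simp [hc]
    rw [map_add, map_mul, map_mul, hF, hG, h1, h1, map_add]
    simp only [pow_add, Finset.prod_mul_distrib]
    ring
  | mul_X f j hf =>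
    obtain ⟨F, e, hF⟩ := hf
    refine ⟨F * X (j, 0), fun i => e i + if i = j then 1 else 0, fun x s => ?_⟩
    rw [map_mul, map_mul, hF, eval_X, eval_X]
    simp only [pow_add, Finset.prod_mul_distrib]
    have h1 : ∏ i, s i ^ (if i = j then 1 else 0) = s j := by
      rw [Finset.prod_eq_single j]
      · simp
      · intro i _ hi
        rw [if_neg hi, pow_zero]
      · intro h
        exact absurd (Finset.mem_univ _) h
    rw [h1]
    simp only [hc, if_true]
    ring

/-- integral forms of rational polynomials -/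
theorem exists_int (f : Polynomial ℚ) : ∃ (F : Polynomial ℤ) (D : ℤ), D ≠ 0 ∧
    F.natDegree = f.natDegree ∧ ∀ x : ℂ, (F.map (Int.castRingHom ℂ)).eval x =
      D * Polynomial.aeval x f := by
  obtain ⟨b, hbm, hb⟩ := IsLocalization.integerNormalization_spec (nonZeroDivisors ℤ) f
  have hb0 : b ≠ 0 := nonZeroDivisors.ne_zero hbm
  have h2 : (b • f) = Polynomial.C (b : ℚ) * f := by
    rw [← Polynomial.smul_eq_C_mul, Int.cast_smul_eq_zsmul]
  rw [h2] at hb
  refine ⟨IsLocalization.integerNormalization (nonZeroDivisors ℤ) f, b, hb0, ?_, fun x => ?_⟩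
  · have h1 := congrArg Polynomial.natDegree hb
    rw [Polynomial.natDegree_map_eq_of_injective (RingHom.injective_int _)] at h1
    rw [h1, Polynomial.natDegree_C_mul (Int.cast_ne_zero.2 hb0)]
  · have h1 : Int.castRingHom ℂ = (algebraMap ℚ ℂ).comp (algebraMap ℤ ℚ) := RingHom.ext_int _ _
    rw [h1, ← Polynomial.map_map, hb, Polynomial.map_mul, Polynomial.map_C, Polynomial.eval_mul,
      Polynomial.eval_C, Polynomial.eval_map_algebraMap]
    simp

section polys

variable {N : ℕ} (F : Fin N → Polynomial ℤ) (D : Fin N → ℤ)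

/-- the coefficients of the forms -/
def vv : Co N (fun i => (F i).natDegree) → ℤ :=
  fun q => if q.2.1 = 0 then (F q.1).coeff q.2.2 else if (q.2.2 : ℕ) = 0 then D q.1 else 0

theorem pt_vv0 {K : Type} [CommRing K] (i : Fin N) (t s : K) :
    pt (bs fun e => ((vv F D ⟨i, e⟩ : ℤ) : K)) (fun a => s * (![t, 1] : Fin 2 → K) a) 0 =
      s ^ (F i).natDegree * ((F i).map (Int.castRingHom K)).eval t := by
  change eval (fun a => s * (![t, 1] : Fin 2 → K) a) (bs (fun e => ((vv F D ⟨i, e⟩ : ℤ) : K)) 0) = _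
  rw [bs, eval_bf, Polynomial.eval_map, Polynomial.eval₂_eq_sum_range, Finset.mul_sum,
    ← Fin.sum_univ_eq_sum_range (fun k => s ^ (F i).natDegree *
      ((Int.castRingHom K) ((F i).coeff k) * t ^ k))]
  refine Finset.sum_congr rfl fun e _ => ?_
  have he : (e : ℕ) ≤ (F i).natDegree := Nat.le_of_lt_succ e.2
  have h1 : s ^ (F i).natDegree = s ^ (e : ℕ) * s ^ ((F i).natDegree - (e : ℕ)) := by
    rw [← pow_add]
    congr 1
    omega
  rw [h1]
  simp only [vv, if_true, Matrix.cons_val_zero, Matrix.cons_val_one, mul_one, mul_pow, eq_intCast]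
  ring

theorem pt_vv1 {K : Type} [CommRing K] (i : Fin N) (t s : K) :
    pt (bs fun e => ((vv F D ⟨i, e⟩ : ℤ) : K)) (fun a => s * (![t, 1] : Fin 2 → K) a) 1 =
      s ^ (F i).natDegree * (D i : K) := by
  change eval (fun a => s * (![t, 1] : Fin 2 → K) a) (bs (fun e => ((vv F D ⟨i, e⟩ : ℤ) : K)) 1) = _
  rw [bs, eval_bf, Finset.sum_eq_single (0 : Fin ((F i).natDegree + 1))]
  · simp [vv]
    ring
  · intro e _ he
    have h1 : (e : ℕ) ≠ 0 := fun h => he (Fin.ext h)
    simp [vv, h1]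
  · intro h
    exact absurd (Finset.mem_univ _) h

theorem J_vv (i : Fin N) (u : ℂ) (h : J (fun e => ((vv F D e : ℤ) : ℂ)) i ![u, 1] = 0)
    (hD : D i ≠ 0) : ((F i).map (Int.castRingHom ℂ)).derivative.eval u = 0 := by
  unfold J at h
  rw [jac_eq, eval_d0, eval_d1, eval_d1, eval_d0] at h
  have hG0 : ∑ e : Fin ((F i).natDegree + 1), ((vv F D ⟨i, (1, e)⟩ : ℤ) : ℂ) *
      (((e : ℕ) : ℂ) * (![u, 1] : Fin 2 → ℂ) 0 ^ ((e : ℕ) - 1) *
        (![u, 1] : Fin 2 → ℂ) 1 ^ ((F i).natDegree - (e : ℕ))) = 0 := by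
    refine Finset.sum_eq_zero fun e _ => ?_
    by_cases h1 : (e : ℕ) = 0
    · rw [h1]
      simp
    · simp [vv, h1]
  have hG1 : ∑ e : Fin ((F i).natDegree + 1), ((vv F D ⟨i, (1, e)⟩ : ℤ) : ℂ) *
      ((![u, 1] : Fin 2 → ℂ) 0 ^ (e : ℕ) * ((((F i).natDegree - (e : ℕ) : ℕ) : ℂ) *
        (![u, 1] : Fin 2 → ℂ) 1 ^ ((F i).natDegree - (e : ℕ) - 1))) =
      (D i : ℂ) * ((F i).natDegree : ℂ) := by
    rw [Finset.sum_eq_single (0 : Fin ((F i).natDegree + 1))]
    · simp [vv]
    · intro e _ he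
      have h1 : (e : ℕ) ≠ 0 := fun h => he (Fin.ext h)
      simp [vv, h1]
    · intro h
      exact absurd (Finset.mem_univ _) h
  have hF0 : ∑ e : Fin ((F i).natDegree + 1), ((vv F D ⟨i, (0, e)⟩ : ℤ) : ℂ) *
      (((e : ℕ) : ℂ) * (![u, 1] : Fin 2 → ℂ) 0 ^ ((e : ℕ) - 1) *
        (![u, 1] : Fin 2 → ℂ) 1 ^ ((F i).natDegree - (e : ℕ))) =
      ((F i).map (Int.castRingHom ℂ)).derivative.eval u := by
    rw [Polynomial.derivative_eval, Polynomial.sum_over_range' _ (by simp) ((F i).natDegree + 1)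
      (by rw [Polynomial.natDegree_map_eq_of_injective (RingHom.injective_int _)]; omega),
      ← Fin.sum_univ_eq_sum_range (fun k => ((F i).map (Int.castRingHom ℂ)).coeff k * (k : ℂ) *
        u ^ (k - 1))]
    refine Finset.sum_congr rfl fun e _ => ?_
    rw [Polynomial.coeff_map]
    simp only [vv, if_true, Matrix.cons_val_zero, Matrix.cons_val_one, one_pow, mul_one, eq_intCast]
    ring
  rw [hG0, hG1, hF0, mul_zero, sub_zero] at h
  rcases mul_eq_zero.1 h with h1 | h1
  · exact h1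
  · have h2 := (mul_eq_zero.1 h1).resolve_left (Int.cast_ne_zero.2 hD)
    have h3 : (F i).natDegree = 0 := by exact_mod_cast h2
    have h4 : ((F i).map (Int.castRingHom ℂ)).natDegree = 0 := by
      rw [Polynomial.natDegree_map_eq_of_injective (RingHom.injective_int _), h3]
    rw [Polynomial.derivative_of_natDegree_zero h4, Polynomial.eval_zero]

theorem ok_vv {K : Type} [Field K] (i : Fin N) (hD : (D i : K) ≠ 0) (z : Fin 2 → K)
    (hz : Ok true z) : Ok true (pt (bs fun e => ((vv F D ⟨i, e⟩ : ℤ) : K)) z) := by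
  have h1 := hz.2 rfl
  have h2 : pt (bs fun e => ((vv F D ⟨i, e⟩ : ℤ) : K)) z 1 ≠ 0 := by
    rw [nrm_one h1, pt_vv1]
    exact mul_ne_zero (pow_ne_zero _ h1) hD
  exact ⟨fun h => h2 (congrFun h 1), fun _ => h2⟩

end polys

/-- words -/
theorem wv_acomp {N : ℕ} (f : Fin N → Polynomial ℚ) (F : Fin N → Polynomial ℤ) (D : Fin N → ℤ)
    (hD : ∀ i, D i ≠ 0)
    (hF : ∀ i (x : ℂ), ((F i).map (Int.castRingHom ℂ)).eval x = D i * Polynomial.aeval x (f i))
    (w : List (Fin N)) (y : ℂ) : ∃ s : ℂ, s ≠ 0 ∧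
      wv (fun e => ((vv F D e : ℤ) : ℂ)) w ![y, 1] =
        fun a => s * (![acomp f w y, 1] : Fin 2 → ℂ) a := by
  induction w with
  | nil =>
    refine ⟨1, one_ne_zero, ?_⟩
    funext a
    rw [one_mul]
    rfl
  | cons i w ih =>
    obtain ⟨s, hs, h⟩ := ih
    refine ⟨s ^ (F i).natDegree * (D i : ℂ), mul_ne_zero (pow_ne_zero _ hs)
      (Int.cast_ne_zero.2 (hD i)), ?_⟩
    change pt (bs fun e => ((vv F D ⟨i, e⟩ : ℤ) : ℂ)) (wv (fun e => ((vv F D e : ℤ) : ℂ)) w ![y, 1])
      = _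
    rw [h]
    funext a
    fin_cases a
    · change pt (bs fun e => ((vv F D ⟨i, e⟩ : ℤ) : ℂ)) (fun a => s * (![acomp f w y, 1] :
        Fin 2 → ℂ) a) 0 = _
      rw [pt_vv0, hF]
      change _ = s ^ (F i).natDegree * (D i : ℂ) * Polynomial.aeval (acomp f w y) (f i)
      ring
    · change pt (bs fun e => ((vv F D ⟨i, e⟩ : ℤ) : ℂ)) (fun a => s * (![acomp f w y, 1] :
        Fin 2 → ℂ) a) 1 = _
      rw [pt_vv1]
      change _ = s ^ (F i).natDegree * (D i : ℂ) * 1
      ring

theorem iterate_mul (g : ℂ ≃+* ℂ) (e : ℕ) (x y : ℂ) :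
    (⇑g)^[e] (x * y) = (⇑g)^[e] x * (⇑g)^[e] y := by
  induction e with
  | zero => rfl
  | succ e ih => rw [Function.iterate_succ_apply', Function.iterate_succ_apply',
      Function.iterate_succ_apply', ih, map_mul]

theorem iterate_ne (g : ℂ ≃+* ℂ) (e : ℕ) (x : ℂ) (hx : x ≠ 0) : (⇑g)^[e] x ≠ 0 := by
  induction e with
  | zero => exact hx
  | succ e ih =>
    rw [Function.iterate_succ_apply']
    exact (map_ne_zero g).2 ih

theorem iterate_one (g : ℂ ≃+* ℂ) (e : ℕ) : (⇑g)^[e] 1 = 1 := by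
  induction e with
  | zero => rfl
  | succ e ih => rw [Function.iterate_succ_apply', ih, map_one]

/-- **Polynomials, permutations of the coordinates.** -/
theorem aff_perm {g : ℂ ≃+* ℂ} {m N : ℕ} (f : Fin N → Polynomial ℚ)
    (hcr : ∀ i (x : ℂ), Polynomial.aeval x (f i).derivative = 0 → ∃ e, 1 ≤ e ∧ (⇑g)^[e] x = x ∧
      ∀ y : ℂ, (⇑g)^[e] y = y → ∀ w : List (Fin N), w.length = m → acomp f w y ≠ x)
    (α : Fin N → ℂ) (π : Fin N → Fin N) (hπ : Function.Surjective π) : ADML (amap f π) α := by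
  classical
  choose F D hD hdeg hF using fun i => exists_int (f i)
  obtain ⟨B, hB⟩ := exists_emb_int α
  have hF' : ∀ i (x : ℂ), ((F i).map (Int.castRingHom ℂ)).derivative.eval x =
      D i * Polynomial.aeval x (f i).derivative := by
    intro i x
    have h1 : (F i).map (Int.castRingHom ℂ) =
        Polynomial.C (D i : ℂ) * (f i).map (algebraMap ℚ ℂ) := by
      apply Polynomial.funext
      intro x
      rw [hF, Polynomial.eval_mul, Polynomial.eval_C, Polynomial.eval_map_algebraMap]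
    rw [h1, Polynomial.derivative_C_mul, Polynomial.derivative_map, Polynomial.eval_mul,
      Polynomial.eval_C, Polynomial.eval_map_algebraMap]
  obtain ⟨p, hp, hpB, hJ, h2⟩ := red (g := g) true m (vv F D)
    (fun i z hz => ok_vv F D i (Int.cast_ne_zero.2 (hD i)) z hz)
    (fun i z hz hJz => by
      have hz1 := hz.2 rfl
      obtain ⟨u, hu⟩ : ∃ u, u = z 0 / z 1 := ⟨_, rfl⟩
      have e1 := nrm_one hz1
      rw [← hu] at e1
      rw [e1, J_smul] at hJz
      have h3 := (mul_eq_zero.1 hJz).resolve_left (pow_ne_zero _ hz1)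
      have h4 := J_vv F D i u h3 (hD i)
      rw [hF'] at h4
      obtain ⟨e, he, hfx, hno⟩ := hcr i u ((mul_eq_zero.1 h4).resolve_left
        (Int.cast_ne_zero.2 (hD i)))
      refine ⟨e, he, ⟨(⇑g)^[e] (z 1) / z 1, fun a => ?_⟩, fun y hy hyf w hw hS => ?_⟩
      · have h5 : ∀ c : ℂ, (⇑g)^[e] c = c → (⇑g)^[e] (z 1 * c) =
            (⇑g)^[e] (z 1) / z 1 * (z 1 * c) := by
          intro c hc
          rw [iterate_mul, hc]
          field_simp
        rw [e1]
        fin_cases a
        · have h6 := h5 u hfx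
          simpa using h6
        · have h6 := h5 1 (iterate_one g e)
          simpa using h6
      · have hy1 := hy.2 rfl
        obtain ⟨t, ht⟩ : ∃ t, t = y 0 / y 1 := ⟨_, rfl⟩
        have e2 := nrm_one hy1
        rw [← ht] at e2
        obtain ⟨l, hl⟩ := hyf
        have hgt : (⇑g)^[e] t = t := by
          have h5 : y 0 = t * y 1 := by
            rw [ht, div_mul_cancel₀ _ hy1]
          have h6 := hl 0
          rw [h5, iterate_mul, hl 1] at h6
          have h7 : l * y 1 ≠ 0 := by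
            rw [← hl 1]
            exact iterate_ne g e _ hy1
          apply mul_right_cancel₀ h7
          rw [h6]
          ring
        obtain ⟨Dw, hDw⟩ := wv_smul (fun e => ((vv F D e : ℤ) : ℂ)) w
        obtain ⟨s, hs, hw2⟩ := wv_acomp f F D hD hF w t
        rw [e2, hDw, hw2] at hS
        rw [e1] at hS
        apply hno t hgt w hw
        unfold Same at hS
        simp only [Matrix.cons_val_zero, Matrix.cons_val_one, mul_one] at hS
        have h8 : (y 1 ^ Dw * s * z 1) * acomp f w t = (y 1 ^ Dw * s * z 1) * u := by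
          linear_combination hS
        exact mul_left_cancel₀ (mul_ne_zero (mul_ne_zero (pow_ne_zero _ hy1) hs) hz1) h8)
    (max B (∑ i, (D i).natAbs))
  have hpB' : B < p := lt_of_le_of_lt (le_max_left _ _) hpB
  have hDp : ∀ i, ((D i : ℤ) : AlgebraicClosure (ZMod p)) ≠ 0 := by
    intro i h
    rw [CharP.intCast_eq_zero_iff (AlgebraicClosure (ZMod p)) p] at h
    have h3 := Int.natAbs_dvd_natAbs.2 h
    rw [Int.natAbs_natCast] at h3
    have h4 : (D i).natAbs ≤ ∑ i, (D i).natAbs :=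
      Finset.single_le_sum (f := fun i => (D i).natAbs) (fun _ _ => Nat.zero_le _)
        (Finset.mem_univ i)
    have h5 := Nat.le_of_dvd (Int.natAbs_pos.2 (hD i)) h3
    have h6 := le_max_right B (∑ i, (D i).natAbs)
    omega
  have hloc : Loc p true m fun e => ((vv F D e : ℤ) : AlgebraicClosure (ZMod p)) :=
    ⟨fun i z hz => ok_vv F D i (hDp i) z hz, h2⟩
  have hcp := charP_resF p
  have hloc' := loc_transfer (p := p) (ResF (PadicAlgCl p)) true m (vv F D) hloc hJ
  obtain ⟨τ, hτ⟩ := hB p hpB'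
  have h4 := dml_loc π hπ (vv F D) true m hloc' (hc α fun _ => 1) τ (by
    refine ⟨?_, fun i => ⟨1, by simp [hc]⟩, fun _ i => by simp [hc]⟩
    rintro ⟨i, a⟩
    simp only [hc]
    split_ifs
    · rw [mul_one]
      exact hτ i
    · simp)
  have horb : ∀ n, ∃ s : Fin N → ℂ, (∀ i, s i ≠ 0) ∧
      (cmap (ps π (vv F D)))^[n] (hc α fun _ => 1) = hc ((amap f π)^[n] α) s := by
    intro n
    induction n with
    | zero => exact ⟨fun _ => 1, fun _ => one_ne_zero, rfl⟩
    | succ n ih =>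
      obtain ⟨s, hs, h5⟩ := ih
      refine ⟨fun i => s (π i) ^ (F i).natDegree * (D i : ℂ), fun i => mul_ne_zero
        (pow_ne_zero _ (hs _)) (Int.cast_ne_zero.2 (hD i)), ?_⟩
      rw [Function.iterate_succ_apply', Function.iterate_succ_apply', h5, Hm.cmap_ps]
      funext q
      obtain ⟨i, a⟩ := q
      have h6 : Hm.smap π (vv F D) (hc ((amap f π)^[n] α) s) (i, a) =
          pt (bs fun e => ((vv F D ⟨i, e⟩ : ℤ) : ℂ))
            (fun a => s (π i) * (![(amap f π)^[n] α (π i), 1] : Fin 2 → ℂ) a) a := by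
        change _ = eval _ (bs (fun e => ((vv F D ⟨i, e⟩ : ℤ) : ℂ)) a)
        rw [bs, eval_bf]
        simp only [Hm.smap, hc, Matrix.cons_val_zero, Matrix.cons_val_one, mul_one, if_true,
          one_ne_zero, if_false]
        refine Finset.sum_congr rfl fun e _ => ?_
        rw [mul_comm (s (π i))]
      rw [h6]
      fin_cases a
      · change pt (bs fun e => ((vv F D ⟨i, e⟩ : ℤ) : ℂ))
            (fun a => s (π i) * (![(amap f π)^[n] α (π i), 1] : Fin 2 → ℂ) a) 0 =
          amap f π ((amap f π)^[n] α) i * (s (π i) ^ (F i).natDegree * (D i : ℂ))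
        rw [pt_vv0, hF]
        simp only [amap]
        ring
      · change pt (bs fun e => ((vv F D ⟨i, e⟩ : ℤ) : ℂ))
            (fun a => s (π i) * (![(amap f π)^[n] α (π i), 1] : Fin 2 → ℂ) a) 1 =
          s (π i) ^ (F i).natDegree * (D i : ℂ)
        rw [pt_vv1]
  choose G eG hG using fun g : MvPolynomial (Fin N) ℂ => homogenize g
  intro S
  obtain ⟨T, hT⟩ := h4 (G '' S)
  refine ⟨T, ?_⟩
  rw [← hT]
  ext n
  simp only [Set.mem_ofPred_eq, Set.forall_mem_image]
  apply forall₂_congr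
  intro g' _
  obtain ⟨s, hs, h5⟩ := horb n
  rw [h5, hG]
  have h6 : ∏ i, s i ^ eG g' i ≠ 0 := Finset.prod_ne_zero_iff.2 fun i _ => pow_ne_zero _ (hs i)
  constructor
  · intro h7
    rw [h7, mul_zero]
  · intro h7
    exact (mul_eq_zero.1 h7).resolve_left h6

/-- **Polynomials.** -/
theorem aff_all {g : ℂ ≃+* ℂ} {m N : ℕ} (f : Fin N → Polynomial ℚ)
    (hcr : ∀ i (x : ℂ), Polynomial.aeval x (f i).derivative = 0 → ∃ e, 1 ≤ e ∧ (⇑g)^[e] x = x ∧
      ∀ y : ℂ, (⇑g)^[e] y = y → ∀ w : List (Fin N), w.length = m → acomp f w y ≠ x)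
    (α : Fin N → ℂ) (σ : Fin N → Fin N) : ADML (amap f σ) α :=
  aff_of_perm f α (fun π hπ => aff_perm f hcr α π hπ) σ

end Pool.Agent.V7H60.GC
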