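import Pool.Agent.V7H60.GC.Loc

set_option autoImplicit false

/-!
# The local condition over the algebraic closure of the prime field implies it over all fields
-/

namespace Pool.Agent.V7H60.GC

open MvPolynomial Pool.Agent.TH838.DS Pool.Agent.H936R2

section nat

variable {R S : Type} [CommRing R] [CommRing S] (φ : R →+* S)

theorem pt_nat {d : ℕ} (c : Fin 2 × Fin (d + 1) → R) (y : Fin 2 → R) (j : Fin 2) :
    pt (bs fun t => φ (c t)) (fun a => φ (y a)) j = φ (pt (bs c) y j) := by
  change eval (fun a => φ (y a)) (bs (fun t => φ (c t)) j) = φ (eval y (bs c j))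
  rw [bs, bs, eval_bf, eval_bf, map_sum]
  refine Finset.sum_congr rfl fun e _ => ?_
  simp only [map_mul, map_pow]

variable {N : ℕ} {d : Fin N → ℕ}

theorem wv_nat (v : Co N d → R) (w : List (Fin N)) (y : Fin 2 → R) :
    wv (fun e => φ (v e)) w (fun a => φ (y a)) = fun a => φ (wv v w y a) := by
  induction w with
  | nil => rfl
  | cons i w ih =>
    change pt (bs fun e => φ (v ⟨i, e⟩)) (wv (fun e => φ (v e)) w fun a => φ (y a)) = _
    rw [ih]
    funext j
    exact pt_nat φ (fun e => v ⟨i, e⟩) (wv v w y) j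

theorem J_nat (v : Co N d → R) (i : Fin N) (z : Fin 2 → R) :
    J (fun e => φ (v e)) i (fun a => φ (z a)) = φ (J v i z) := by
  unfold J
  have h1 := jac_map φ (bs fun e => v ⟨i, e⟩) z
  have h2 : (fun j => map φ (bs (fun e => v ⟨i, e⟩) j)) = bs fun e => φ (v ⟨i, e⟩) := by
    funext j
    unfold bs
    rw [map_bf]
  rw [h2] at h1
  rw [h1, RingHom.map_det]

end nat

section field

variable {K : Type} [Field K] {N : ℕ} {d : Fin N → ℕ}

theorem wv_smul (v : Co N d → K) (w : List (Fin N)) : ∃ D : ℕ, ∀ (l : K) (y : Fin 2 → K),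
    wv v w (fun a => l * y a) = fun a => l ^ D * wv v w y a := by
  induction w with
  | nil => exact ⟨1, fun l y => by simp [wv]⟩
  | cons i w ih =>
    obtain ⟨D, hD⟩ := ih
    refine ⟨D * d i, fun l y => ?_⟩
    change pt (bs fun e => v ⟨i, e⟩) (wv v w fun a => l * y a) = _
    rw [hD l y]
    funext j
    rw [pt_smul, pow_mul]
    rfl

theorem d0_smul {d : ℕ} (c : Fin (d + 1) → K) (l : K) (y : Fin 2 → K) :
    eval (fun a => l * y a) (pderiv 0 (bf c)) = l ^ (d - 1) * eval y (pderiv 0 (bf c)) := by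
  rw [eval_d0, eval_d0, Finset.mul_sum]
  refine Finset.sum_congr rfl fun e _ => ?_
  rcases Nat.eq_zero_or_pos (e : ℕ) with h | h
  · rw [h]; simp
  · have he : (e : ℕ) ≤ d := by omega
    have h1 : l ^ (d - 1) = l ^ ((e : ℕ) - 1) * l ^ (d - (e : ℕ)) := by
      rw [← pow_add]
      congr 1
      omega
    rw [h1, mul_pow, mul_pow]
    ring

theorem d1_smul {d : ℕ} (c : Fin (d + 1) → K) (l : K) (y : Fin 2 → K) :
    eval (fun a => l * y a) (pderiv 1 (bf c)) = l ^ (d - 1) * eval y (pderiv 1 (bf c)) := by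
  rw [eval_d1, eval_d1, Finset.mul_sum]
  refine Finset.sum_congr rfl fun e _ => ?_
  rcases Nat.eq_zero_or_pos (d - (e : ℕ)) with h | h
  · rw [h]; simp
  · have h1 : l ^ (d - 1) = l ^ (e : ℕ) * l ^ (d - (e : ℕ) - 1) := by
      rw [← pow_add]
      congr 1
      omega
    rw [h1, mul_pow, mul_pow]
    ring

theorem jac_eq {d : ℕ} (c : Fin 2 × Fin (d + 1) → K) (y : Fin 2 → K) :
    (jac (bs c) y).det = eval y (pderiv 0 (bf fun e => c (0, e))) *
      eval y (pderiv 1 (bf fun e => c (1, e))) -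
      eval y (pderiv 1 (bf fun e => c (0, e))) * eval y (pderiv 0 (bf fun e => c (1, e))) := by
  rw [Matrix.det_fin_two]
  rfl

theorem J_smul (v : Co N d → K) (i : Fin N) (l : K) (y : Fin 2 → K) :
    J v i (fun a => l * y a) = l ^ (2 * (d i - 1)) * J v i y := by
  unfold J
  rw [jac_eq, jac_eq, d0_smul, d0_smul, d1_smul, d1_smul, two_mul, pow_add]
  ring

/-- a vector with a nonzero second coordinate -/
theorem nrm_one {z : Fin 2 → K} (h : z 1 ≠ 0) : z = fun a => z 1 * (![z 0 / z 1, 1] : Fin 2 → K) a := by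
  funext a
  fin_cases a
  · change z 0 = z 1 * (z 0 / z 1)
    field_simp
  · change z 1 = z 1 * 1
    rw [mul_one]

theorem nrm_zero {z : Fin 2 → K} (h : z 1 = 0) :
    z = fun a => z 0 * (![1, 0] : Fin 2 → K) a := by
  funext a
  fin_cases a
  · change z 0 = z 0 * 1
    rw [mul_one]
  · change z 1 = z 0 * 0
    rw [h, mul_zero]

theorem z0_ne {z : Fin 2 → K} (hz : z ≠ 0) (h : z 1 = 0) : z 0 ≠ 0 := by
  intro h0
  apply hz
  funext a
  fin_cases a
  · exact h0
  · exact h

theorem Same.smul {z z' : Fin 2 → K} {l l' : K} (hl : l ≠ 0) (hl' : l' ≠ 0)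
    (h : Same (fun a => l * z a) (fun a => l' * z' a)) : Same z z' := by
  unfold Same at h ⊢
  have h1 : (l * l') * (z 0 * z' 1) = (l * l') * (z 1 * z' 0) := by linear_combination h
  exact mul_left_cancel₀ (mul_ne_zero hl hl') h1

end field

section ring

variable {K : Type} [CommRing K] {N : ℕ} {d : Fin N → ℕ}

/-- `(X, 1)` -/
noncomputable def X1 (K : Type) [CommRing K] : Fin 2 → Polynomial K := ![Polynomial.X, 1]

theorem eval_X1 (u : K) : (fun a => (Polynomial.evalRingHom u) (X1 K a)) = ![u, 1] := by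
  funext a
  fin_cases a
  · simp [X1]
  · simp [X1]

/-- the polynomial of the critical points -/
noncomputable def JP (v : Co N d → K) (i : Fin N) : Polynomial K :=
  J (fun e => Polynomial.C (v e)) i (X1 K)

theorem eval_JP (v : Co N d → K) (i : Fin N) (u : K) : (JP v i).eval u = J v i ![u, 1] := by
  have h := J_nat (Polynomial.evalRingHom u) (fun e => Polynomial.C (v e)) i (X1 K)
  rw [eval_X1] at h
  simp only [Polynomial.coe_evalRingHom, Polynomial.eval_C] at h
  exact h.symm

/-- the values -/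
noncomputable def WP (v : Co N d → K) (w : List (Fin N)) (a : Fin 2) : Polynomial K :=
  wv (fun e => Polynomial.C (v e)) w (X1 K) a

theorem eval_WP (v : Co N d → K) (w : List (Fin N)) (a : Fin 2) (u : K) :
    (WP v w a).eval u = wv v w ![u, 1] a := by
  have h := wv_nat (Polynomial.evalRingHom u) (fun e => Polynomial.C (v e)) w (X1 K)
  rw [eval_X1] at h
  simp only [Polynomial.coe_evalRingHom, Polynomial.eval_C] at h
  exact (congrFun h a).symm


variable {S : Type} [CommRing S] (θ : K →+* S)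

theorem map_WP (v : Co N d → ℤ) (w : List (Fin N)) (a : Fin 2) :
    (WP (fun e => ((v e : ℤ) : K)) w a).map θ = WP (fun e => ((v e : ℤ) : S)) w a := by
  have h := wv_nat (Polynomial.mapRingHom θ) (fun e => Polynomial.C ((v e : ℤ) : K)) w (X1 K)
  have h1 : (fun a => (Polynomial.mapRingHom θ) (X1 K a)) = X1 S := by
    funext a
    fin_cases a <;> simp [X1]
  have h3 : (fun e => (Polynomial.mapRingHom θ) (Polynomial.C ((v e : ℤ) : K))) =
      fun e => Polynomial.C ((v e : ℤ) : S) := by
    funext e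
    rw [Polynomial.coe_mapRingHom, Polynomial.map_C, map_intCast]
  rw [h1, h3] at h
  exact (congrFun h a).symm

theorem map_JP (v : Co N d → ℤ) (i : Fin N) :
    (JP (fun e => ((v e : ℤ) : K)) i).map θ = JP (fun e => ((v e : ℤ) : S)) i := by
  have h := J_nat (Polynomial.mapRingHom θ) (fun e => Polynomial.C ((v e : ℤ) : K)) i (X1 K)
  have h1 : (fun a => (Polynomial.mapRingHom θ) (X1 K a)) = X1 S := by
    funext a
    fin_cases a <;> simp [X1]
  have h3 : (fun e => (Polynomial.mapRingHom θ) (Polynomial.C ((v e : ℤ) : K))) =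
      fun e => Polynomial.C ((v e : ℤ) : S) := by
    funext e
    rw [Polynomial.coe_mapRingHom, Polynomial.map_C, map_intCast]
  rw [h1, h3] at h
  exact h.symm

end ring


section

variable {p : ℕ} [hp : Fact p.Prime] {Ω K' : Type} [Field Ω] [IsAlgClosed Ω] [Field K'] (θ : Ω →+* K')

theorem root_descend (P : Polynomial Ω) (hP : P ≠ 0) (u : K') (h : (P.map θ).eval u = 0) :
    ∃ u', θ u' = u ∧ P.eval u' = 0 := by
  have h1 : u ∈ (P.map θ).roots := by
    rw [Polynomial.mem_roots (Polynomial.map_ne_zero hP)]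
    exact h
  rw [(IsAlgClosed.splits P).roots_map θ, Multiset.mem_map] at h1
  obtain ⟨u', h2, h3⟩ := h1
  exact ⟨u', h3, (Polynomial.mem_roots hP).1 h2⟩

theorem poly_nonroot (P : Polynomial Ω) (h : ∀ u, P.eval u ≠ 0) (u : K') :
    (P.map θ).eval u ≠ 0 := by
  have hd : P.degree = 0 := by
    by_contra hd
    obtain ⟨x, hx⟩ := IsAlgClosed.exists_root P hd
    exact h x hx
  rw [Polynomial.eq_C_of_degree_eq_zero hd, Polynomial.map_C, Polynomial.eval_C]
  intro h0
  apply h 0
  rw [Polynomial.eq_C_of_degree_eq_zero hd, Polynomial.eval_C]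
  exact (map_eq_zero θ).1 h0

variable {N : ℕ} {d : Fin N → ℕ}

theorem ok_X1 (b : Bool) (u : Ω) : Ok b ![u, 1] := by
  refine ⟨fun h => ?_, fun _ => ?_⟩
  · have := congrFun h 1
    simp at this
  · simp

theorem ok_X0 (_ : Ω) : Ok false (![1, 0] : Fin 2 → Ω) := by
  refine ⟨fun h => ?_, fun h => by simp at h⟩
  have := congrFun h 0
  simp at this

theorem b_false {b : Bool} {K : Type} [Field K] {z : Fin 2 → K} (hz : Ok b z) (h : z 1 = 0) :
    b = false := by
  cases b with
  | false => rfl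
  | true => exact absurd h (hz.2 rfl)

/-- the map over the larger field preserves admissible points -/
theorem ok_up (θ : Ω →+* K') (b : Bool) (v : Co N d → ℤ) (i : Fin N)
    (h : ∀ z : Fin 2 → Ω, Ok b z → Ok b (pt (bs fun e => ((v ⟨i, e⟩ : ℤ) : Ω)) z))
    (z : Fin 2 → K') (hz : Ok b z) : Ok b (pt (bs fun e => ((v ⟨i, e⟩ : ℤ) : K')) z) := by
  have hw : ∀ {F : Type} [Field F] (z : Fin 2 → F),
      pt (bs fun e => ((v ⟨i, e⟩ : ℤ) : F)) z = wv (fun e => ((v e : ℤ) : F)) [i] z := fun z => rfl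
  rw [hw]
  have h' : ∀ z : Fin 2 → Ω, Ok b z → Ok b (wv (fun e => ((v e : ℤ) : Ω)) [i] z) := by
    intro z hz
    have := h z hz
    rwa [hw] at this
  obtain ⟨D, hD⟩ := wv_smul (fun e => ((v e : ℤ) : K')) [i]
  by_cases h1 : z 1 = 0
  · have hb := b_false hz h1
    subst hb
    have h0 := z0_ne hz.1 h1
    rw [nrm_zero h1, hD]
    have h2 := h' ![1, 0] (ok_X0 0)
    refine ⟨fun h3 => h2.1 ?_, fun h => by simp at h⟩
    funext a
    have h4 := congrFun h3 a
    have h5 := congrFun (wv_nat θ (fun e => ((v e : ℤ) : Ω)) [i] ![1, 0]) a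
    have h6 : (fun a => θ ((![1, 0] : Fin 2 → Ω) a)) = ![1, 0] := by
      funext a
      fin_cases a <;> simp
    rw [h6] at h5
    simp only [map_intCast] at h5
    simp only [Pi.zero_apply] at h4 ⊢
    rw [h5] at h4
    rcases mul_eq_zero.1 h4 with h7 | h7
    · exact absurd h7 (pow_ne_zero _ h0)
    · exact (map_eq_zero θ).1 h7
  · obtain ⟨u, hu⟩ : ∃ u, u = z 0 / z 1 := ⟨_, rfl⟩
    have hz1 : z = fun a => z 1 * (![u, 1] : Fin 2 → K') a := by
      rw [hu]
      exact nrm_one h1
    rw [hz1, hD]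
    have key : Ok b (wv (fun e => ((v e : ℤ) : K')) [i] ![u, 1]) := by
      have e1 : ∀ a, ((WP (fun e => ((v e : ℤ) : Ω)) [i] a).map θ).eval u =
          wv (fun e => ((v e : ℤ) : K')) [i] ![u, 1] a := by
        intro a
        rw [map_WP, eval_WP]
      refine ⟨fun h3 => ?_, fun hb => ?_⟩
      · -- a common root
        have h4 : ∀ a, ((WP (fun e => ((v e : ℤ) : Ω)) [i] a).map θ).eval u = 0 := by
          intro a
          rw [e1 a, h3]
          rfl
        by_cases h5 : ∀ a, WP (fun e => ((v e : ℤ) : Ω)) [i] a = 0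
        · apply (h' ![0, 1] (ok_X1 b 0)).1
          funext a
          rw [← eval_WP, h5 a, Polynomial.eval_zero]
          rfl
        · push Not at h5
          obtain ⟨a, ha⟩ := h5
          obtain ⟨u', hu', -⟩ := root_descend θ _ ha u (h4 a)
          apply (h' ![u', 1] (ok_X1 b u')).1
          funext a'
          have h6 := h4 a'
          rw [← hu', Polynomial.eval_map_apply] at h6
          rw [← eval_WP]
          exact (map_eq_zero θ).1 h6
      · rw [← e1 1]
        apply poly_nonroot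
        intro u'
        rw [eval_WP]
        exact (h' ![u', 1] (ok_X1 b u')).2 hb
    refine ⟨fun h3 => key.1 ?_, fun hb => mul_ne_zero (pow_ne_zero _ h1) (key.2 hb)⟩
    funext a
    have h4 := congrFun h3 a
    simp only [Pi.zero_apply] at h4 ⊢
    exact (mul_eq_zero.1 h4).resolve_left (pow_ne_zero _ h1)

theorem descend_fix [CharP Ω p] (θ : Ω →+* K') {e : ℕ} (he : 1 ≤ e) (b : Bool) (y : Fin 2 → K') (hy : Ok b y)
    (hf : FixK (p ^ e) y) : ∃ (l : K') (y' : Fin 2 → Ω), l ≠ 0 ∧ Ok b y' ∧ FixK (p ^ e) y' ∧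
      y = fun a => l * θ (y' a) := by
  by_cases h1 : y 1 = 0
  · have hb := b_false hy h1
    subst hb
    have h0 := z0_ne hy.1 h1
    refine ⟨y 0, ![1, 0], h0, ok_X0 0, ⟨1, fun a => ?_⟩, ?_⟩
    · have hq : p ^ e ≠ 0 := pow_ne_zero _ hp.out.ne_zero
      fin_cases a
      · change (1 : Ω) ^ p ^ e = 1 * 1
        rw [one_pow, one_mul]
      · change (0 : Ω) ^ p ^ e = 1 * 0
        rw [zero_pow hq, mul_zero]
    · rw [nrm_zero h1]
      funext a
      fin_cases a <;> simp
  · obtain ⟨l, hl⟩ := hf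
    obtain ⟨u, hu⟩ : ∃ u, u = y 0 / y 1 := ⟨_, rfl⟩
    have hq1 : 1 < p ^ e := Nat.one_lt_pow (by omega) hp.out.one_lt
    have huq : u ^ p ^ e = u := by
      rw [hu, div_pow, hl 0, hl 1]
      have hl0 : l ≠ 0 := by
        rintro rfl
        have := hl 1
        rw [zero_mul] at this
        exact h1 (pow_eq_zero_iff (by omega) |>.1 this)
      field_simp
    obtain ⟨u', hu', hu2⟩ := root_descend θ (Polynomial.X ^ p ^ e - Polynomial.X : Polynomial Ω)
      (FiniteField.X_pow_card_pow_sub_X_ne_zero Ω (by omega) hp.out.one_lt) u (by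
        simp [huq])
    refine ⟨y 1, ![u', 1], h1, ok_X1 b u', ⟨1, fun a => ?_⟩, ?_⟩
    · fin_cases a
      · have h3 : u' ^ p ^ e - u' = 0 := by simpa using hu2
        change u' ^ p ^ e = 1 * u'
        rw [one_mul]
        exact sub_eq_zero.1 h3
      · simp
    · have h4 := nrm_one h1
      rw [h4]
      funext a
      fin_cases a
      · simp [hu', hu]
      · simp

end

/-- **From the algebraic closure of the prime field to any field.** -/
theorem loc_transfer {p : ℕ} [hp : Fact p.Prime] (K : Type) [Field K] [CharP K p] (b : Bool) (m : ℕ)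
    {N : ℕ} {d : Fin N → ℕ} (v : Co N d → ℤ)
    (hΩ : Loc p b m fun e => ((v e : ℤ) : AlgebraicClosure (ZMod p)))
    (hW : ∀ i, JP (fun e => ((v e : ℤ) : AlgebraicClosure (ZMod p))) i ≠ 0) :
    Loc p b m fun e => ((v e : ℤ) : K) := by
  classical
  let K' := AlgebraicClosure K
  let ι : K →+* K' := algebraMap K K'
  have hcp : CharP K' p := charP_of_injective_ringHom ι.injective p
  let _ : Algebra (ZMod p) K' := ZMod.algebra K' p
  let θ : AlgebraicClosure (ZMod p) →+* K' :=
    (IsAlgClosed.lift (R := ZMod p) (M := K') (S := AlgebraicClosure (ZMod p))).toRingHom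
  have hcΩ : CharP (AlgebraicClosure (ZMod p)) p := inferInstance
  obtain ⟨h1, h2⟩ := hΩ
  have hι0 : ∀ {y : Fin 2 → K}, Ok b y → Ok b fun a => ι (y a) := by
    intro y hy
    refine ⟨fun h => hy.1 ?_, fun hb h => hy.2 hb ((map_eq_zero ι).1 h)⟩
    funext a
    exact (map_eq_zero ι).1 (congrFun h a)
  refine ⟨?_, ?_⟩
  · intro i z hz
    have h3 := ok_up θ b v i (h1 i) (fun a => ι (z a)) (hι0 hz)
    have h4 : pt (bs fun e => ((v ⟨i, e⟩ : ℤ) : K')) (fun a => ι (z a)) =
        fun a => ι (pt (bs fun e => ((v ⟨i, e⟩ : ℤ) : K)) z a) := by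
      funext a
      have := pt_nat ι (fun e => ((v ⟨i, e⟩ : ℤ) : K)) z a
      simp only [map_intCast] at this
      exact this
    rw [h4] at h3
    refine ⟨fun h => h3.1 ?_, fun hb h => h3.2 hb ?_⟩
    · funext a
      simp only [h, Pi.zero_apply, map_zero]
    · change ι (pt (bs fun e => ((v ⟨i, e⟩ : ℤ) : K)) z 1) = 0
      rw [h, map_zero]
  · intro i z hz hJ
    -- the critical point comes from the algebraic closure of the prime field
    have hJ' : J (fun e => ((v e : ℤ) : K')) i (fun a => ι (z a)) = 0 := by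
      have := J_nat ι (fun e => ((v e : ℤ) : K)) i z
      simp only [map_intCast] at this
      rw [this, hJ, map_zero]
    obtain ⟨l, x, hl, hx, hJx, hzx⟩ : ∃ (l : K') (x : Fin 2 → AlgebraicClosure (ZMod p)), l ≠ 0 ∧
        Ok b x ∧ J (fun e => ((v e : ℤ) : AlgebraicClosure (ZMod p))) i x = 0 ∧
        (fun a => ι (z a)) = fun a => l * θ (x a) := by
      have hz' := hι0 hz
      have hnat : ∀ x : Fin 2 → AlgebraicClosure (ZMod p),
          J (fun e => ((v e : ℤ) : K')) i (fun a => θ (x a)) =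
            θ (J (fun e => ((v e : ℤ) : AlgebraicClosure (ZMod p))) i x) := by
        intro x
        have := J_nat θ (fun e => ((v e : ℤ) : AlgebraicClosure (ZMod p))) i x
        simp only [map_intCast] at this
        exact this
      by_cases hz1 : ι (z 1) = 0
      · have hb := b_false hz' hz1
        subst hb
        have h0 := z0_ne hz'.1 hz1
        have e1 : (fun a => ι (z a)) = fun a => ι (z 0) * θ ((![1, 0] : Fin 2 → _) a) := by
          have := nrm_zero (z := fun a => ι (z a)) hz1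
          rw [this]
          funext a
          fin_cases a <;> simp
        refine ⟨ι (z 0), ![1, 0], h0, ok_X0 0, ?_, e1⟩
        rw [e1, J_smul (fun e => ((v e : ℤ) : K')) i (ι (z 0)) (fun a => θ ((![1, 0] : Fin 2 → _) a)),
          hnat] at hJ'
        exact (map_eq_zero θ).1 ((mul_eq_zero.1 hJ').resolve_left (pow_ne_zero _ h0))
      · obtain ⟨u, hu⟩ : ∃ u, u = ι (z 0) / ι (z 1) := ⟨_, rfl⟩
        have e1 := nrm_one (z := fun a => ι (z a)) hz1
        rw [← hu] at e1
        have h3 := hJ'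
        rw [e1, J_smul] at h3
        have h4 := (mul_eq_zero.1 h3).resolve_left (pow_ne_zero _ hz1)
        rw [← eval_JP, ← map_JP θ] at h4
        obtain ⟨u', hu', hu2⟩ := root_descend θ _ (hW i) u h4
        rw [eval_JP] at hu2
        refine ⟨ι (z 1), ![u', 1], hz1, ok_X1 b u', hu2, ?_⟩
        rw [e1]
        funext a
        fin_cases a <;> simp [hu']
    obtain ⟨e, he, hfix, hno⟩ := h2 i x hx hJx
    refine ⟨e, he, ?_, ?_⟩
    · obtain ⟨lx, hlx⟩ := hfix
      obtain ⟨a₀, ha₀⟩ : ∃ a, z a ≠ 0 := by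
        by_contra hcon
        push Not at hcon
        exact hz.1 (funext hcon)
      have h3 : ∀ a, ι (z a) ^ p ^ e = (l ^ p ^ e * θ lx * l⁻¹) * ι (z a) := by
        intro a
        have h4 : ι (z a) = l * θ (x a) := congrFun hzx a
        rw [h4, mul_pow, ← map_pow, hlx a, map_mul]
        have h7 : l⁻¹ * l = 1 := inv_mul_cancel₀ hl
        linear_combination (-(l ^ p ^ e * θ lx * θ (x a))) * h7
      refine ⟨z a₀ ^ p ^ e / z a₀, fun a => ?_⟩
      apply ι.injective
      rw [map_pow, map_mul, map_div₀, map_pow, h3 a, h3 a₀]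
      have h5 : ι (z a₀) ≠ 0 := (map_ne_zero ι).2 ha₀
      rw [mul_div_cancel_right₀ _ h5]
    · intro y hy hyf w hw hS
      have hyf' : FixK (p ^ e) fun a => ι (y a) := by
        obtain ⟨ly, hly⟩ := hyf
        refine ⟨ι ly, fun a => ?_⟩
        rw [← map_pow, hly a, map_mul]
      obtain ⟨l', y', hl', hy', hyf2, hyy⟩ := descend_fix (p := p) θ he b _ (hι0 hy) hyf'
      apply hno y' hy' hyf2 w hw
      obtain ⟨D, hD⟩ := wv_smul (fun e => ((v e : ℤ) : K')) w
      have h3 : (fun a => ι (wv (fun e => ((v e : ℤ) : K)) w y a)) =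
          fun a => l' ^ D * θ (wv (fun e => ((v e : ℤ) : AlgebraicClosure (ZMod p))) w y' a) := by
        have h4 := wv_nat ι (fun e => ((v e : ℤ) : K)) w y
        simp only [map_intCast] at h4
        rw [← h4, hyy, hD]
        have h5 := wv_nat θ (fun e => ((v e : ℤ) : AlgebraicClosure (ZMod p))) w y'
        simp only [map_intCast] at h5
        rw [h5]
      have hS' : Same (fun a => ι (wv (fun e => ((v e : ℤ) : K)) w y a)) (fun a => ι (z a)) := by
        unfold Same at hS ⊢
        rw [← map_mul, ← map_mul, hS]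
      rw [h3, hzx] at hS'
      have h6 := hS'.smul (pow_ne_zero _ hl') hl
      unfold Same at h6 ⊢
      apply θ.injective
      rw [map_mul, map_mul]
      exact h6

end Pool.Agent.V7H60.GC
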