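import Pool.Agent.W401.Cheb.Main
import Pool.Agent.V7H60.GC.Alg

set_option autoImplicit false

/-!
# Reduction modulo a prime whose Frobenius element is a given automorphism of the complex numbers
-/

namespace Pool.Agent.V7H60.GC

open NumberField Pool.Agent.W401.Cheb

/-- a reduction map modulo a prime `p` at which `g` acts as the Frobenius map -/
structure Pkg (g : ℂ ≃+* ℂ) where
  p : ℕ
  hp : Fact p.Prime
  R : Type
  inst : CommRing R
  ι : R →+* ℂ
  ψ : R →+* AlgebraicClosure (ZMod p)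
  inj : Function.Injective ι
  stab : ∀ x, ∃ y, ι y = g (ι x)
  frob : ∀ x y, ι y = g (ι x) → ψ y = ψ x ^ p

attribute [instance] Pkg.inst Pkg.hp

theorem exists_pkg (g : ℂ ≃+* ℂ) (T : Set ℂ) (hfin : T.Finite) (hT : ∀ t ∈ T, IsAlgebraic ℚ t)
    (B : ℕ) : ∃ P : Pkg g, B < P.p ∧ ∀ t ∈ T, ∃ r, P.ι r = t := by
  classical
  let E : IntermediateField ℚ ℂ := IntermediateField.adjoin ℚ T
  have hE : FiniteDimensional ℚ E := by
    have : Finite T := hfin
    exact IntermediateField.finiteDimensional_adjoin fun x hx => (hT x hx).isIntegral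
  let L : IntermediateField ℚ ℂ := IntermediateField.normalClosure ℚ E ℂ
  have hL : FiniteDimensional ℚ L := normalClosure.is_finiteDimensional ℚ E ℂ
  have hN : Normal ℚ L := (Algebra.IsAlgebraic.isNormalClosure_normalClosure (F := ℚ) (K := E)
    (L := ℂ) fun x => IsAlgClosed.splits _).normal
  have hEL : E ≤ L := by
    exact IntermediateField.le_normalClosure E
  have hNF : NumberField L := { to_charZero := inferInstance, to_finiteDimensional := hL }
  have hG : IsGalois ℚ L := { }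
  let g' : ℂ ≃ₐ[ℚ] ℂ := AlgEquiv.ofRingEquiv (f := g) (fun q => by simp)
  let gL : Gal(L/ℚ) := g'.restrictNormal L
  have hgL : ∀ x : L, ((gL x : L) : ℂ) = g (x : ℂ) := fun x => g'.restrictNormal_commutes L x
  -- a common denominator
  have hD : ∃ D : ℕ, D ≠ 0 ∧ ∀ t ∈ T, IsIntegral ℤ ((D : ℂ) * t) := by
    clear hgL gL g' hG hNF hEL hN hL L hE E
    induction T, hfin using Set.Finite.induction_on with
    | empty => exact ⟨1, one_ne_zero, fun t ht => ht.elim⟩
    | @insert a s _ _ ih =>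
      obtain ⟨D, hD0, hD⟩ := ih (fun t ht => hT t (Set.mem_insert_of_mem _ ht))
      obtain ⟨y, hy0, hy⟩ := IsAlgebraic.exists_integral_multiple
        ((IsFractionRing.isAlgebraic_iff ℤ ℚ ℂ).2 (hT a (Set.mem_insert _ _)))
      refine ⟨D * y.natAbs, mul_ne_zero hD0 (Int.natAbs_ne_zero.2 hy0), ?_⟩
      have hy' : IsIntegral ℤ ((y.natAbs : ℂ) * a) := by
        rcases Int.natAbs_eq y with h | h
        · have h1 : ((y.natAbs : ℂ)) = (y : ℂ) := by
            rw [← Int.cast_natCast, ← h]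
          rw [h1, ← zsmul_eq_mul]
          exact hy
        · have h1 : ((y.natAbs : ℂ)) = -(y : ℂ) := by
            rw [← Int.cast_natCast]
            have h2 : ((y.natAbs : ℤ)) = -y := by omega
            rw [h2, Int.cast_neg]
          rw [h1, neg_mul, ← zsmul_eq_mul]
          exact hy.neg
      intro t ht
      rcases ht with rfl | ht
      · rw [Nat.cast_mul, mul_assoc]
        exact (isIntegral_algebraMap (R := ℤ) (x := (D : ℤ))).mul hy' |> fun h => by simpa using h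
      · have h3 := (isIntegral_algebraMap (R := ℤ) (A := ℂ) (x := (y.natAbs : ℤ))).mul (hD t ht)
        have h4 : ((D * y.natAbs : ℕ) : ℂ) * t =
            (algebraMap ℤ ℂ (y.natAbs : ℤ)) * ((D : ℂ) * t) := by
          rw [algebraMap_int_eq, eq_intCast, Int.cast_natCast, Nat.cast_mul]
          ring
        rw [h4]
        exact h3
  obtain ⟨D, hD0, hD⟩ := hD
  obtain ⟨p, ⟨hp, hxp⟩, hpB⟩ := (infinite_frob L gL).exists_gt (max B D)
  have hpf : Fact p.Prime := ⟨hp⟩
  have hBp : B < p := lt_of_le_of_lt (le_max_left _ _) hpB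
  have hDp : D < p := lt_of_le_of_lt (le_max_right _ _) hpB
  obtain ⟨φ, hφ⟩ : ∃ φ : 𝓞 L →+* AlgebraicClosure (ZMod p), HasFrob p φ gL := by
    unfold xp at hxp
    rw [dif_pos hp] at hxp
    obtain ⟨⟨φ, hφ⟩⟩ := (Nat.card_ne_zero.1 hxp).1
    exact ⟨φ, hφ⟩
  let R := Localization.Away (D : 𝓞 L)
  let ι0 : 𝓞 L →+* ℂ := (algebraMap L ℂ).comp (algebraMap (𝓞 L) L)
  have hι0 : Function.Injective ι0 :=
    (algebraMap L ℂ).injective.comp (FaithfulSMul.algebraMap_injective (𝓞 L) L)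
  have hDι : IsUnit (ι0 (D : 𝓞 L)) := by
    rw [map_natCast]
    exact isUnit_iff_ne_zero.2 (Nat.cast_ne_zero.2 hD0)
  have hDφ' : (D : AlgebraicClosure (ZMod p)) ≠ 0 := by
    rw [Ne, CharP.cast_eq_zero_iff (AlgebraicClosure (ZMod p)) p]
    exact fun h => absurd (Nat.le_of_dvd (Nat.pos_of_ne_zero hD0) h) (by omega)
  have hDφ : IsUnit (φ (D : 𝓞 L)) := by
    rw [map_natCast]
    exact isUnit_iff_ne_zero.2 hDφ'
  let ι : R →+* ℂ := IsLocalization.Away.lift (S := R) (D : 𝓞 L) hDι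
  let ψ : R →+* AlgebraicClosure (ZMod p) := IsLocalization.Away.lift (S := R) (D : 𝓞 L) hDφ
  have hι : ∀ a : 𝓞 L, ι (algebraMap (𝓞 L) R a) = ι0 a := fun a =>
    IsLocalization.Away.lift_eq (S := R) (D : 𝓞 L) hDι a
  have hψ : ∀ a : 𝓞 L, ψ (algebraMap (𝓞 L) R a) = φ a := fun a =>
    IsLocalization.Away.lift_eq (S := R) (D : 𝓞 L) hDφ a
  have hsurj : ∀ x : R, ∃ (a : 𝓞 L) (n : ℕ), x * (D : R) ^ n = algebraMap (𝓞 L) R a := by
    intro x
    obtain ⟨n, a, h⟩ := IsLocalization.Away.surj (D : 𝓞 L) x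
    refine ⟨a, n, ?_⟩
    rw [← h, map_natCast]
  have hDC : (D : ℂ) ≠ 0 := Nat.cast_ne_zero.2 hD0
  have hDR : IsUnit (D : R) := by
    have := IsLocalization.Away.algebraMap_isUnit (S := R) (D : 𝓞 L)
    rwa [map_natCast] at this
  have hinj : Function.Injective ι := by
    rw [injective_iff_map_eq_zero]
    intro x hx
    obtain ⟨a, n, h⟩ := hsurj x
    have h1 : ι0 a = 0 := by
      rw [← hι, ← h, map_mul, hx, zero_mul]
    have h2 : a = 0 := hι0 (by rw [h1, map_zero])
    rw [h2, map_zero] at h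
    exact (hDR.pow n).mul_left_eq_zero.1 h
  have hg0 : ∀ a : 𝓞 L, ι0 (gL • a) = g (ι0 a) := by
    intro a
    exact hgL (a : L)
  refine ⟨⟨p, hpf, R, inferInstance, ι, ψ, hinj, ?_, ?_⟩, hBp, ?_⟩
  · intro x
    obtain ⟨a, n, h⟩ := hsurj x
    obtain ⟨u, hu⟩ := hDR.pow n
    refine ⟨algebraMap (𝓞 L) R (gL • a) * (u⁻¹ : Rˣ), ?_⟩
    have h1 : ι x * (D : ℂ) ^ n = ι0 a := by
      rw [← hι, ← h, map_mul, map_pow, map_natCast]
    have h2 : g (ι x) * (D : ℂ) ^ n = ι0 (gL • a) := by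
      rw [hg0, ← h1, map_mul, map_pow, map_natCast]
    have h3 : ι ((u⁻¹ : Rˣ) : R) * (D : ℂ) ^ n = 1 := by
      have h4 : (D : ℂ) ^ n = ι (u : R) := by
        rw [hu, map_pow, map_natCast]
      rw [h4, ← map_mul, Units.inv_mul, map_one]
    rw [map_mul, hι, ← h2]
    linear_combination (g (ι x)) * h3
  · intro x y hxy
    obtain ⟨a, n, h⟩ := hsurj x
    have h1 : ι x * (D : ℂ) ^ n = ι0 a := by
      rw [← hι, ← h, map_mul, map_pow, map_natCast]
    have h2 : g (ι x) * (D : ℂ) ^ n = ι0 (gL • a) := by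
      rw [hg0, ← h1, map_mul, map_pow, map_natCast]
    have h3 : y * (D : R) ^ n = algebraMap (𝓞 L) R (gL • a) := by
      apply hinj
      rw [map_mul, map_pow, map_natCast, hxy, h2, hι]
    have h4 : ψ y * (D : AlgebraicClosure (ZMod p)) ^ n = φ a ^ p := by
      rw [← hφ a, ← hψ, ← h3, map_mul, map_pow, map_natCast]
    have h5 : ψ x * (D : AlgebraicClosure (ZMod p)) ^ n = φ a := by
      rw [← hψ, ← h, map_mul, map_pow, map_natCast]
    have h6 : (D : AlgebraicClosure (ZMod p)) ^ p = D := by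
      have h7 : (D : AlgebraicClosure (ZMod p)) =
          algebraMap (ZMod p) (AlgebraicClosure (ZMod p)) (D : ZMod p) := by
        rw [map_natCast]
      rw [h7, ← map_pow, ZMod.pow_card]
    rw [← h5, mul_pow, ← pow_mul, mul_comm n p, pow_mul, h6] at h4
    exact mul_right_cancel₀ (pow_ne_zero n hDφ') h4
  · intro t ht
    have htL : t ∈ L := hEL (IntermediateField.subset_adjoin ℚ T ht)
    have h1 : ((D : L) * (⟨t, htL⟩ : L)) ∈ integralClosure ℤ L := by
      change IsIntegral ℤ ((D : L) * (⟨t, htL⟩ : L))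
      have h2 := hD t ht
      have h3 : (D : ℂ) * t = algebraMap L ℂ ((D : L) * (⟨t, htL⟩ : L)) := by
        rw [map_mul, map_natCast]
        rfl
      rw [h3] at h2
      exact (isIntegral_algebraMap_iff (algebraMap L ℂ).injective).1 h2
    obtain ⟨u, hu⟩ := hDR
    let a : 𝓞 L := ⟨_, h1⟩
    refine ⟨algebraMap (𝓞 L) R a * (u⁻¹ : Rˣ), ?_⟩
    change ι (algebraMap (𝓞 L) R a * (u⁻¹ : Rˣ)) = t
    rw [map_mul, hι]
    have h3 : ι ((u⁻¹ : Rˣ) : R) * (D : ℂ) = 1 := by
      have h4 : (D : ℂ) = ι (u : R) := by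
        rw [hu, map_natCast]
      rw [h4, ← map_mul, Units.inv_mul, map_one]
    have h5 : ι0 a = (D : ℂ) * t := by
      change algebraMap L ℂ ((D : L) * (⟨t, htL⟩ : L)) = _
      rw [map_mul, map_natCast]
      rfl
    rw [h5]
    linear_combination t * h3

end Pool.Agent.V7H60.GC
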