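import Pool.Agent.V7H60.GC.Red

set_option autoImplicit false

/-!
# Dynamical Mordell-Lang from a field automorphism
-/

namespace Pool.Agent.V7H60.GC

open MvPolynomial Pool.Agent.TH838.DS Pool.Agent.H936R2 Pool.Agent.H905R3.DML

section euler

variable {K : Type} [Field K]

theorem euler {d : ℕ} (c : Fin (d + 1) → K) (z : Fin 2 → K) :
    z 0 * eval z (pderiv 0 (bf c)) + z 1 * eval z (pderiv 1 (bf c)) = d * eval z (bf c) := by
  rw [eval_d0, eval_d1, eval_bf, Finset.mul_sum, Finset.mul_sum, Finset.mul_sum,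
    ← Finset.sum_add_distrib]
  refine Finset.sum_congr rfl fun e _ => ?_
  have he : (e : ℕ) ≤ d := by omega
  have h0 : z 0 * (((e : ℕ) : K) * z 0 ^ ((e : ℕ) - 1)) = ((e : ℕ) : K) * z 0 ^ (e : ℕ) := by
    rcases Nat.eq_zero_or_pos (e : ℕ) with h | h
    · rw [h]; simp
    · obtain ⟨n, hn⟩ := Nat.exists_eq_succ_of_ne_zero h.ne'
      rw [hn, Nat.succ_sub_one, pow_succ]
      ring
  have h1 : z 1 * (((d - (e : ℕ) : ℕ) : K) * z 1 ^ (d - (e : ℕ) - 1)) =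
      ((d - (e : ℕ) : ℕ) : K) * z 1 ^ (d - (e : ℕ)) := by
    rcases Nat.eq_zero_or_pos (d - (e : ℕ)) with h | h
    · rw [h]; simp
    · obtain ⟨n, hn⟩ := Nat.exists_eq_succ_of_ne_zero h.ne'
      rw [hn, Nat.succ_sub_one, pow_succ]
      ring
  have h2 : (d : K) = ((e : ℕ) : K) + ((d - (e : ℕ) : ℕ) : K) := by
    rw [← Nat.cast_add]
    congr 1
    omega
  rw [h2]
  linear_combination (c e * z 1 ^ (d - (e : ℕ))) * h0 + (c e * z 0 ^ (e : ℕ)) * h1

theorem J_of_zero {N : ℕ} {d : Fin N → ℕ} (v : Co N d → K) (i : Fin N) (z : Fin 2 → K)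
    (hz : z ≠ 0) (h : pt (bs fun e => v ⟨i, e⟩) z = 0) : J v i z = 0 := by
  unfold J
  rw [jac_eq]
  have h0 : eval z (bf fun e => v ⟨i, (0, e)⟩) = 0 := congrFun h 0
  have h1 : eval z (bf fun e => v ⟨i, (1, e)⟩) = 0 := congrFun h 1
  have e0 := euler (fun e => v ⟨i, (0, e)⟩) z
  have e1 := euler (fun e => v ⟨i, (1, e)⟩) z
  rw [h0, mul_zero] at e0
  rw [h1, mul_zero] at e1
  have k0 : z 0 * (eval z (pderiv 0 (bf fun e => v ⟨i, (0, e)⟩)) *
      eval z (pderiv 1 (bf fun e => v ⟨i, (1, e)⟩)) -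
      eval z (pderiv 1 (bf fun e => v ⟨i, (0, e)⟩)) *
        eval z (pderiv 0 (bf fun e => v ⟨i, (1, e)⟩))) = 0 := by
    linear_combination (eval z (pderiv 1 (bf fun e => v ⟨i, (1, e)⟩))) * e0 -
      (eval z (pderiv 1 (bf fun e => v ⟨i, (0, e)⟩))) * e1
  have k1 : z 1 * (eval z (pderiv 0 (bf fun e => v ⟨i, (0, e)⟩)) *
      eval z (pderiv 1 (bf fun e => v ⟨i, (1, e)⟩)) -
      eval z (pderiv 1 (bf fun e => v ⟨i, (0, e)⟩)) *
        eval z (pderiv 0 (bf fun e => v ⟨i, (1, e)⟩))) = 0 := by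
    linear_combination (eval z (pderiv 0 (bf fun e => v ⟨i, (0, e)⟩))) * e1 -
      (eval z (pderiv 0 (bf fun e => v ⟨i, (1, e)⟩))) * e0
  by_cases hz1 : z 1 = 0
  · exact (mul_eq_zero.1 k0).resolve_left (z0_ne hz hz1)
  · exact (mul_eq_zero.1 k1).resolve_left hz1

theorem pt_zero {d : ℕ} (hd : 1 ≤ d) (c : Fin 2 × Fin (d + 1) → K) : pt (bs c) 0 = 0 := by
  funext j
  have h := pt_smul c 0 0 j
  rw [zero_pow (by omega), zero_mul] at h
  have h1 : (fun i => (0 : K) * (0 : Fin 2 → K) i) = 0 := by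
    funext i
    simp
  rw [h1] at h
  exact h

/-- good reduction is automatic -/
theorem loc_one {p m : ℕ} (hm : 1 ≤ m) {N : ℕ} {d : Fin N → ℕ} (hd : ∀ i, 1 ≤ d i)
    (v : Co N d → K)
    (h : ∀ i (z : Fin 2 → K), Ok false z → J v i z = 0 → ∃ e, 1 ≤ e ∧ FixK (p ^ e) z ∧
      ∀ y : Fin 2 → K, Ok false y → FixK (p ^ e) y → ∀ w : List (Fin N), w.length = m →
        ¬ Same (wv v w y) z) : Loc p false m v := by
  refine ⟨fun i z hz => ⟨fun h0 => ?_, fun h1 => by simp at h1⟩, h⟩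
  obtain ⟨e, -, hf, hno⟩ := h i z hz (J_of_zero v i z hz.1 h0)
  have hw : ∀ n, wv v (List.replicate (n + 1) i) z = 0 := by
    intro n
    induction n with
    | zero => exact h0
    | succ n ih =>
      change pt (bs fun e => v ⟨i, e⟩) (wv v (List.replicate (n + 1) i) z) = 0
      rw [ih]
      exact pt_zero (hd i) _
  obtain ⟨n, rfl⟩ : ∃ n, m = n + 1 := ⟨m - 1, by omega⟩
  refine hno z hz hf (List.replicate (n + 1) i) (by simp) ?_
  rw [hw n]
  unfold Same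
  simp

end euler

/-- the coefficients of the tuple `f_(τ 1), ..., f_(τ N)` -/
def pull {k N : ℕ} {d : Fin k → ℕ} (τ : Fin N → Fin k) {R : Type} (v : Co k d → R) :
    Co N (fun i => d (τ i)) → R :=
  fun q => v ⟨τ q.1, q.2⟩

theorem wv_pull {k N : ℕ} {d : Fin k → ℕ} (τ : Fin N → Fin k) {R : Type} [CommRing R]
    (v : Co k d → R) (w : List (Fin N)) (y : Fin 2 → R) :
    wv (pull τ v) w y = wv v (w.map τ) y := by
  induction w with
  | nil => rfl
  | cons i w ih =>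
    change pt (bs fun e => v ⟨τ i, e⟩) (wv (pull τ v) w y) =
      pt (bs fun e => v ⟨τ i, e⟩) (wv v (w.map τ) y)
    rw [ih]

/-- **All complex points, products of rational functions.** -/
theorem all_points_g {g : ℂ ≃+* ℂ} {m : ℕ} (hm : 1 ≤ m) {N : ℕ} {d : Fin N → ℕ}
    (hd : ∀ i, 1 ≤ d i) (v : Co N d → ℤ)
    (h0 : ∀ i (z : Fin 2 → ℂ), z ≠ 0 → pt (bs fun e => ((v ⟨i, e⟩ : ℤ) : ℂ)) z ≠ 0)
    (h1 : ∀ i (z : Fin 2 → ℂ), z ≠ 0 → J (fun e => ((v e : ℤ) : ℂ)) i z = 0 →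
      ∃ e, 1 ≤ e ∧ FixC g e z ∧ ∀ y : Fin 2 → ℂ, y ≠ 0 → FixC g e y →
        ∀ w : List (Fin N), w.length = m → ¬ Same (wv (fun e => ((v e : ℤ) : ℂ)) w y) z)
    (σ : Fin N → Fin N) : Hm.DMLOver ⊤ σ v := by
  classical
  obtain ⟨p, hp, -, hJ, h2⟩ := red (g := g) false m v
    (fun i z hz => ⟨h0 i z hz.1, fun h => by simp at h⟩)
    (fun i z hz hJz => by
      obtain ⟨e, he, hf, hno⟩ := h1 i z hz.1 hJz
      exact ⟨e, he, hf, fun y hy => hno y hy.1⟩) 0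
  have hloc := loc_one hm hd _ h2
  have hcp := charP_resF p
  have hloc' := loc_transfer (p := p) (ResF (PadicAlgCl p)) false m v hloc hJ
  apply Hm.dml_of_perm ⊤ v
  intro π hπ α _ hα0
  obtain ⟨τ⟩ := exists_embedding p
  have h3 : ∀ i, ∃ j, α (i, j) ≠ 0 ∧ ∀ j', ‖τ (α (i, j'))‖ ≤ ‖τ (α (i, j))‖ := by
    intro i
    obtain ⟨j, hj⟩ := Finite.exists_max (fun j => ‖τ (α (i, j))‖)
    refine ⟨j, ?_, hj⟩
    intro h0
    apply hα0 i
    rw [h0, map_zero, norm_zero] at hj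
    exact ⟨(map_eq_zero τ).1 (norm_le_zero_iff.1 (hj 0)),
      (map_eq_zero τ).1 (norm_le_zero_iff.1 (hj 1))⟩
  choose j hj0 hj using h3
  have hpos : ∀ i, 0 < ‖τ (α (i, j i))‖ := fun i =>
    norm_pos_iff.2 fun h => hj0 i ((map_eq_zero τ).1 h)
  apply Hm.dml_scale π v (fun i => (α (i, j i))⁻¹) (fun i => inv_ne_zero (hj0 i))
  have h4 := dml_loc π hπ v false m hloc' (fun q => (α (q.1, j q.1))⁻¹ * α q) τ (by
      refine ⟨?_, ?_, fun h => by simp at h⟩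
      · intro q
        rw [map_mul, map_inv₀, norm_mul, norm_inv, inv_mul_le_iff₀ (hpos q.1), mul_one]
        exact hj q.1 q.2
      · intro i
        refine ⟨j i, ?_⟩
        simp only
        rw [inv_mul_cancel₀ (hj0 i), map_one, norm_one])
  intro S _
  obtain ⟨T, hT⟩ := h4 S
  refine ⟨T, ?_⟩
  rw [Hm.cmap_ps] at hT
  exact hT

end Pool.Agent.V7H60.GC
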