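import Pool.Agent.TH838.DS.Hom

set_option autoImplicit false

/-!
# The local criterion: no periodic critical points over the residue field

Tuples of pairs of binary forms `v`; words; the condition modulo `p` over a field of characteristic
`p`, for all points (`b = false`) or for the points different from infinity (`b = true`).
-/

namespace Pool.Agent.V7H60.GC

open MvPolynomial Pool.Agent.TH838.DS Pool.Agent.H936R2 Pool.Agent.H905R3.DML
  Pool.Agent.H905R3.DML.Core

/-- admissible points -/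
def Ok (b : Bool) {K : Type} [Field K] (z : Fin 2 → K) : Prop := z ≠ 0 ∧ (b = true → z 1 ≠ 0)

/-- the points agree -/
def Same {K : Type} [CommRing K] (z z' : Fin 2 → K) : Prop := z 0 * z' 1 = z 1 * z' 0

/-- `z` is fixed by the power `x ↦ x ^ q` -/
def FixK {K : Type} [CommRing K] (q : ℕ) (z : Fin 2 → K) : Prop := ∃ l : K, ∀ a, z a ^ q = l * z a

/-- the compositions -/
noncomputable def wv {R : Type} [CommRing R] {N : ℕ} {d : Fin N → ℕ} (v : Co N d → R) :
    List (Fin N) → (Fin 2 → R) → (Fin 2 → R)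
  | [] => fun y => y
  | i :: w => fun y => pt (bs fun e => v ⟨i, e⟩) (wv v w y)

/-- the determinant of Jacobi -/
noncomputable def J {R : Type} [CommRing R] {N : ℕ} {d : Fin N → ℕ} (v : Co N d → R) (i : Fin N)
    (z : Fin 2 → R) : R := (jac (bs fun e => v ⟨i, e⟩) z).det

/-- the condition on the critical points over a field -/
def Loc (p : ℕ) (b : Bool) (m : ℕ) {K : Type} [Field K] {N : ℕ} {d : Fin N → ℕ}
    (v : Co N d → K) : Prop :=
  (∀ i (z : Fin 2 → K), Ok b z → Ok b (pt (bs fun e => v ⟨i, e⟩) z)) ∧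
  ∀ i (z : Fin 2 → K), Ok b z → J v i z = 0 → ∃ e, 1 ≤ e ∧ FixK (p ^ e) z ∧
    ∀ y : Fin 2 → K, Ok b y → FixK (p ^ e) y → ∀ w : List (Fin N), w.length = m →
      ¬ Same (wv v w y) z

section

variable {K : Type} [Field K]

theorem pt_smul {d : ℕ} (c : Fin 2 × Fin (d + 1) → K) (l : K) (y : Fin 2 → K) (j : Fin 2) :
    pt (bs c) (fun i => l * y i) j = l ^ d * pt (bs c) y j := by
  change eval (fun i => l * y i) (bs c j) = l ^ d * eval y (bs c j)
  rw [bs, eval_bf, eval_bf, Finset.mul_sum]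
  refine Finset.sum_congr rfl fun e _ => ?_
  have he : (e : ℕ) ≤ d := by omega
  have h : l ^ d = l ^ (e : ℕ) * l ^ (d - (e : ℕ)) := by
    rw [← pow_add]
    congr 1
    omega
  rw [h, mul_pow, mul_pow]
  ring

/-- forms with coefficients in the prime field commute with the Frobenius map -/
theorem pt_frob {p : ℕ} [hp : Fact p.Prime] [CharP K p] (φ : ZMod p →+* K) {d : ℕ}
    (c : Fin 2 × Fin (d + 1) → ZMod p) (e : ℕ) (y : Fin 2 → K) (j : Fin 2) :
    pt (bs fun t => φ (c t)) y j ^ p ^ e = pt (bs fun t => φ (c t)) (fun i => y i ^ p ^ e) j := by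
  change (eval y (bs (fun t => φ (c t)) j)) ^ p ^ e =
    eval (fun i => y i ^ p ^ e) (bs (fun t => φ (c t)) j)
  rw [bs, eval_bf, eval_bf, sum_pow_char_pow]
  refine Finset.sum_congr rfl fun t _ => ?_
  have h1 : φ (c (j, t)) ^ p ^ e = φ (c (j, t)) := by
    rw [← map_pow, ZMod.pow_card_pow]
  rw [mul_pow, mul_pow, h1, ← pow_mul, ← pow_mul, ← pow_mul, ← pow_mul, mul_comm (t : ℕ),
    mul_comm (d - (t : ℕ))]

theorem fix_step {p : ℕ} [hp : Fact p.Prime] [CharP K p] (φ : ZMod p →+* K) {d : ℕ}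
    (c : Fin 2 × Fin (d + 1) → ZMod p) (e : ℕ) {y : Fin 2 → K} (hy : FixK (p ^ e) y) :
    FixK (p ^ e) (pt (bs fun t => φ (c t)) y) := by
  obtain ⟨l, hl⟩ := hy
  refine ⟨l ^ d, fun j => ?_⟩
  rw [pt_frob φ c e y j]
  have h1 : (fun i => y i ^ p ^ e) = fun i => l * y i := funext hl
  rw [h1, pt_smul]

variable {N : ℕ} {d : Fin N → ℕ}

/-- going back along the orbit -/
theorem chain_word (σ : Fin N → Fin N) (v : Co N d → K) (w : Fin N × Fin 2 → K) (t : ℕ) :
    ∀ (m : ℕ) (j : Fin N), (fun a => (pt (ps σ v))^[t + m] w (j, a)) =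
      wv v (List.iterate σ j m) fun a => (pt (ps σ v))^[t] w (σ^[m] j, a) := by
  intro m
  induction m with
  | zero => intro j; rfl
  | succ m ih =>
    intro j
    have h1 := pt_ps σ v ((pt (ps σ v))^[t + m] w) j
    rw [← Nat.add_assoc, List.iterate, wv]
    have h2 : (fun a => (pt (ps σ v))^[t + m + 1] w (j, a)) =
        fun a => pt (ps σ v) ((pt (ps σ v))^[t + m] w) (j, a) := by
      funext a
      rw [Function.iterate_succ_apply']
    rw [h2, h1, ih (σ j)]
    rfl

theorem length_iterate' {X : Type} (f : X → X) (a : X) (m : ℕ) : (List.iterate f a m).length = m := by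
  simp

/-- Periodic points are not critical. -/
theorem periodic_det' {p : ℕ} [hp : Fact p.Prime] [CharP K p] (φ : ZMod p →+* K) (b : Bool) (M : ℕ)
    (σ : Fin N → Fin N) (hσ : Function.Surjective σ) (v : Co N d → ZMod p)
    (h : Loc p b M fun e => φ (v e)) (w : Fin N × Fin 2 → K) (hw : ∀ i, Ok b fun j => w (i, j))
    (m : ℕ) (hm : 0 < m) (hper : (pt (ps σ fun e => φ (v e)))^[m] w = w) :
    (jac (ps σ fun e => φ (v e)) w).det ≠ 0 := by
  intro h0
  obtain ⟨i, hi⟩ := det_ps' σ hσ (fun e => φ (v e)) w h0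
  obtain ⟨h1, h2⟩ := h
  obtain ⟨e, he, hfix, hno⟩ := h2 i _ (hw (σ i)) hi
  set P := pt (ps σ fun e => φ (v e)) with hP
  have hchain : ∀ t : ℕ, ∀ j, σ^[t] j = σ i →
      Ok b (fun a => P^[t] w (j, a)) ∧ FixK (p ^ e) fun a => P^[t] w (j, a) := by
    intro t
    induction t with
    | zero =>
      intro j hj
      rw [Function.iterate_zero, id] at hj
      subst hj
      exact ⟨hw _, hfix⟩
    | succ t ih =>
      intro j hj
      rw [Function.iterate_succ_apply] at hj
      obtain ⟨g1, g2⟩ := ih (σ j) hj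
      rw [Function.iterate_succ_apply']
      have g3 := pt_ps σ (fun e => φ (v e)) (P^[t] w) j
      rw [← hP] at g3
      rw [g3]
      exact ⟨h1 j _ g1, fix_step φ (fun e => v ⟨j, e⟩) e g2⟩
  obtain ⟨r, hr, hord⟩ := exists_order σ (Finite.injective_iff_surjective.2 hσ)
  obtain ⟨t, ht⟩ : ∃ t, m * r * (M + 1) = t + M := ⟨m * r * (M + 1) - M, by
    have h3 : 1 * (M + 1) ≤ m * r * (M + 1) := Nat.mul_le_mul_right _ (Nat.mul_pos hm hr)
    omega⟩
  have hordL : ∀ j, σ^[t + M] j = j := by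
    intro j
    rw [← ht, Nat.mul_comm m r, Nat.mul_assoc, Function.iterate_mul]
    have h3 : σ^[r] = id := funext hord
    rw [h3, Function.iterate_id, id]
  have hperL : P^[t + M] w = w := by
    have h3 : Function.IsPeriodicPt P m w := hper
    rw [← ht, Nat.mul_assoc]
    exact h3.mul_const _
  have h4 : σ^[t] (σ^[M] (σ i)) = σ i := by
    rw [← Function.iterate_add_apply, hordL]
  obtain ⟨h5, h6⟩ := hchain t _ h4
  apply hno _ h5 h6 (List.iterate σ (σ i) M) (length_iterate' _ _ _)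
  have h7 := chain_word σ (fun e => φ (v e)) w t M (σ i)
  rw [← hP, hperL] at h7
  rw [← h7]
  exact mul_comm _ _

end

/-- admissible points in homogeneous coordinates -/
def OkC (b : Bool) {p : ℕ} [Fact p.Prime] {N : ℕ} (α : Fin N × Fin 2 → ℂ) (τ : ℂ →+* PadicAlgCl p) :
    Prop :=
  (∀ q, ‖τ (α q)‖ ≤ 1) ∧ (∀ i, ∃ j, ‖τ (α (i, j))‖ = 1) ∧ (b = true → ∀ i, ‖τ (α (i, 1))‖ = 1)

/-- **The local criterion.** -/
theorem dml_loc {p : ℕ} [hp : Fact p.Prime] {N : ℕ} {d : Fin N → ℕ} (σ : Fin N → Fin N)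
    (hσ : Function.Surjective σ) (v : Co N d → ℤ) (b : Bool) (M₀ : ℕ)
    (hloc : Loc p b M₀ fun e => ((v e : ℤ) : ResF (PadicAlgCl p)))
    (α : Fin N × Fin 2 → ℂ) (τ : ℂ →+* PadicAlgCl p) (hα : OkC b α τ) : DMLAt (ps σ v) α := by
  classical
  have := charP_resF p
  obtain ⟨hα1, hα2, hα3⟩ := hα
  let k := ResF (PadicAlgCl p)
  let φ : ZMod p →+* k := ZMod.castHom (dvd_refl p) k
  let y : Fin N × Fin 2 → unitBall (PadicAlgCl p) := fun q => ⟨τ (α q), hα1 q⟩
  set FO := overR (unitBall (PadicAlgCl p)) (ps σ v) with hFO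
  have hφ : (fun e => φ ((v e : ℤ) : ZMod p)) = fun e => ((v e : ℤ) : k) := by
    funext e
    exact map_intCast φ (v e)
  have hres : (fun q => map (res (PadicAlgCl p)) (FO q)) = ps σ fun e => φ ((v e : ℤ) : ZMod p) := by
    have h1 : (fun q => map (res (PadicAlgCl p)) (FO q)) = overR k (ps σ v) := overR_map _ _
    rw [h1, overR_ps, hφ]
  obtain ⟨M, m, hm, hper⟩ := res_orbit_periodic p FO y
  apply dml_core (ps σ v) α τ y (fun q => rfl) M
  intro n hn
  rw [← hFO]
  apply isUnit_of_res_ne_zero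
  have hres1 : ∀ q, ‖τ (α q)‖ = 1 → res (PadicAlgCl p) (y q) ≠ 0 := by
    intro q hq h1
    rw [res_eq_zero_iff] at h1
    exact absurd hq (ne_of_lt h1)
  have hb1 : ∀ i, Ok b fun j => res (PadicAlgCl p) (y (i, j)) := by
    intro i
    refine ⟨fun h0 => ?_, fun hb => hres1 _ (hα3 hb i)⟩
    obtain ⟨j, hj⟩ := hα2 i
    exact hres1 _ hj (congrFun h0 j)
  have hloc' : Loc p b M₀ fun e => φ ((v e : ℤ) : ZMod p) := by
    rw [hφ]
    exact hloc
  have hw : ∀ i, Ok b fun j => res (PadicAlgCl p) ((pt FO)^[n] y (i, j)) := by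
    have h1 := pt_map (res (PadicAlgCl p)) FO y n
    rw [hres] at h1
    have h2 : ∀ n, ∀ i, Ok b fun j => (pt (ps σ fun e => φ ((v e : ℤ) : ZMod p)))^[n]
        (fun q => res (PadicAlgCl p) (y q)) (i, j) := by
      intro n
      induction n with
      | zero => exact hb1
      | succ n ih =>
        intro i
        rw [Function.iterate_succ_apply']
        have h3 := pt_ps σ (fun e => φ ((v e : ℤ) : ZMod p))
          ((pt (ps σ fun e => φ ((v e : ℤ) : ZMod p)))^[n] (fun q => res (PadicAlgCl p) (y q))) i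
        rw [h3]
        exact hloc'.1 i _ (ih (σ i))
    intro i
    have h3 := h2 n i
    rw [h1] at h3
    exact h3
  have h3 := hper n hn
  rw [hres] at h3
  have h4 := periodic_det' φ b M₀ σ hσ (fun e => ((v e : ℤ) : ZMod p)) hloc'
    (fun q => res (PadicAlgCl p) ((pt FO)^[n] y q)) hw m hm h3
  have h5 := jac_map (res (PadicAlgCl p)) FO ((pt FO)^[n] y)
  rw [hres] at h5
  rw [h5] at h4
  rw [RingHom.map_det]
  exact h4

end Pool.Agent.V7H60.GC
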