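import Pool.Agent.V7H60.GC.Cheb

set_option autoImplicit false

/-!
# From an automorphism of the complex numbers to the condition modulo a large prime
-/

namespace Pool.Agent.V7H60.GC

open MvPolynomial Pool.Agent.TH838.DS Pool.Agent.H936R2

variable {g : ℂ ≃+* ℂ}

/-- fixed by the `e`-th power of `g` (as a point of the projective line) -/
def FixC (g : ℂ ≃+* ℂ) (e : ℕ) (z : Fin 2 → ℂ) : Prop := ∃ l : ℂ, ∀ a, (⇑g)^[e] (z a) = l * z a

/-- valid for all packages which contain certain algebraic numbers, `p` large -/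
def Large (g : ℂ ≃+* ℂ) (Q : Pkg g → Prop) : Prop :=
  ∃ (T : Set ℂ) (B : ℕ), T.Finite ∧ (∀ t ∈ T, IsAlgebraic ℚ t) ∧
    ∀ P : Pkg g, B < P.p → (∀ t ∈ T, ∃ r, P.ι r = t) → Q P

theorem Large.mono {Q Q' : Pkg g → Prop} (h : Large g Q) (hQ : ∀ P, Q P → Q' P) : Large g Q' := by
  obtain ⟨T, B, h1, h2, h3⟩ := h
  exact ⟨T, B, h1, h2, fun P hP hT => hQ P (h3 P hP hT)⟩

theorem Large.of {Q : Pkg g → Prop} (h : ∀ P, Q P) : Large g Q :=
  ⟨∅, 0, Set.finite_empty, fun _ h => h.elim, fun P _ _ => h P⟩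

theorem Large.and {Q Q' : Pkg g → Prop} (h : Large g Q) (h' : Large g Q') :
    Large g fun P => Q P ∧ Q' P := by
  obtain ⟨T, B, h1, h2, h3⟩ := h
  obtain ⟨T', B', h1', h2', h3'⟩ := h'
  refine ⟨T ∪ T', max B B', h1.union h1', ?_, ?_⟩
  · rintro t (ht | ht)
    · exact h2 t ht
    · exact h2' t ht
  · intro P hP hT
    exact ⟨h3 P (lt_of_le_of_lt (le_max_left _ _) hP) fun t ht => hT t (Or.inl ht),
      h3' P (lt_of_le_of_lt (le_max_right _ _) hP) fun t ht => hT t (Or.inr ht)⟩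

theorem Large.all {I : Type} [Finite I] {Q : I → Pkg g → Prop} (h : ∀ i, Large g (Q i)) :
    Large g fun P => ∀ i, Q i P := by
  classical
  choose T B h1 h2 h3 using h
  obtain ⟨B', hB'⟩ := (Set.finite_range B).bddAbove
  refine ⟨⋃ i, T i, B', Set.finite_iUnion h1, ?_, ?_⟩
  · intro t ht
    obtain ⟨i, hi⟩ := Set.mem_iUnion.1 ht
    exact h2 i t hi
  · intro P hP hT i
    exact h3 i P (lt_of_le_of_lt (hB' ⟨i, rfl⟩) hP) fun t ht => hT t (Set.mem_iUnion.2 ⟨i, ht⟩)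

theorem Large.ex {Q : Pkg g → Prop} (h : Large g Q) (B : ℕ) : ∃ P : Pkg g, B < P.p ∧ Q P := by
  obtain ⟨T, B', h1, h2, h3⟩ := h
  obtain ⟨P, hP, hT⟩ := exists_pkg g T h1 h2 (max B B')
  exact ⟨P, lt_of_le_of_lt (le_max_left _ _) hP, h3 P (lt_of_le_of_lt (le_max_right _ _) hP) hT⟩

theorem large_mem {t : ℂ} (ht : IsAlgebraic ℚ t) : Large g fun P => ∃ r, P.ι r = t :=
  ⟨{t}, 0, Set.finite_singleton t, fun s hs => by rwa [Set.mem_singleton_iff.1 hs],
    fun _ _ hT => hT t rfl⟩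

theorem large_ne {t : ℂ} (ht : IsAlgebraic ℚ t) (h0 : t ≠ 0) :
    Large g fun P => ∀ r, P.ι r = t → P.ψ r ≠ 0 := by
  refine (large_mem (g := g) ht.inv).mono ?_
  rintro P ⟨s, hs⟩ r hr h
  have h1 : r * s = 1 := by
    apply P.inj
    rw [map_mul, hr, hs, map_one, mul_inv_cancel₀ h0]
  have h2 : P.ψ (r * s) = 0 := by rw [map_mul, h, zero_mul]
  rw [h1, map_one] at h2
  exact one_ne_zero h2

theorem large_roots {F₀ : Polynomial ℂ} (h0 : F₀ ≠ 0) (hr : ∀ x ∈ F₀.roots, IsAlgebraic ℚ x)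
    (hl : IsAlgebraic ℚ F₀.leadingCoeff) : Large g fun P => ∀ F : Polynomial P.R,
      F.map P.ι = F₀ → F.map P.ψ ≠ 0 ∧
        ∀ u, (F.map P.ψ).eval u = 0 → ∃ r, F₀.eval (P.ι r) = 0 ∧ P.ψ r = u := by
  classical
  have h1 : Large g fun P => ∀ x : {x // x ∈ F₀.roots}, ∃ r, P.ι r = x.1 := by
    have : Finite {x // x ∈ F₀.roots} := by
      have := F₀.roots.toFinset.finite_toSet
      refine Set.Finite.subset this ?_
      intro x hx
      exact Multiset.mem_toFinset.2 hx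
    exact Large.all fun x => large_mem (hr x.1 x.2)
  refine (h1.and (large_ne (g := g) hl (Polynomial.leadingCoeff_ne_zero.2 h0))).mono ?_
  rintro P ⟨hP1, hP2⟩ F hF
  let f : ℂ → P.R := fun x => if h : x ∈ F₀.roots then (hP1 ⟨x, h⟩).choose else 0
  have hf : ∀ x ∈ F₀.roots, P.ι (f x) = x := by
    intro x hx
    simp only [f, dif_pos hx]
    exact (hP1 ⟨x, hx⟩).choose_spec
  have hlc : P.ι F.leadingCoeff = F₀.leadingCoeff := by
    rw [← hF, Polynomial.leadingCoeff_map_of_injective P.inj]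
  have hfac : F = Polynomial.C F.leadingCoeff *
      (F₀.roots.map fun a => Polynomial.X - Polynomial.C (f a)).prod := by
    apply Polynomial.map_injective P.ι P.inj
    rw [Polynomial.map_mul, Polynomial.map_C, hlc, hF, Polynomial.map_multiset_prod,
      Multiset.map_map]
    conv_lhs => rw [(IsAlgClosed.splits F₀).eq_prod_roots]
    congr 2
    refine Multiset.map_congr rfl fun x hx => ?_
    rw [Function.comp_apply, Polynomial.map_sub, Polynomial.map_X, Polynomial.map_C, hf x hx]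
  have hψ : F.map P.ψ = Polynomial.C (P.ψ F.leadingCoeff) *
      (F₀.roots.map fun a => Polynomial.X - Polynomial.C (P.ψ (f a))).prod := by
    conv_lhs => rw [hfac]
    rw [Polynomial.map_mul, Polynomial.map_C, Polynomial.map_multiset_prod, Multiset.map_map]
    congr 2
    refine Multiset.map_congr rfl fun x _ => ?_
    rw [Function.comp_apply, Polynomial.map_sub, Polynomial.map_X, Polynomial.map_C]
  have hl0 : P.ψ F.leadingCoeff ≠ 0 := hP2 _ hlc
  constructor
  · rw [hψ]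
    refine mul_ne_zero (by rwa [Ne, Polynomial.C_eq_zero]) ?_
    refine (Polynomial.monic_multiset_prod_of_monic _ _ fun a _ => Polynomial.monic_X_sub_C _).ne_zero
  · intro u hu
    rw [hψ, Polynomial.eval_mul, Polynomial.eval_C, mul_eq_zero, Polynomial.eval_multiset_prod,
      Multiset.map_map, Multiset.prod_eq_zero_iff, Multiset.mem_map] at hu
    obtain ⟨a, ha, h2⟩ := hu.resolve_left hl0
    rw [Function.comp_apply, Polynomial.eval_sub, Polynomial.eval_X, Polynomial.eval_C,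
      sub_eq_zero] at h2
    refine ⟨f a, ?_, h2.symm⟩
    rw [hf a ha]
    exact (Polynomial.mem_roots h0).1 ha

/-! ### algebraic numbers -/

/-- the field of algebraic numbers -/
abbrev QA : Type := algebraicClosure ℚ ℂ

theorem isAlg_QA : Algebra.IsAlgebraic ℚ QA := by
  have h := algebraicClosure.isAlgebraic ℚ ℂ
  convert h
  · rfl
  · exact Subsingleton.elim _ _

theorem alg_of (x : QA) : IsAlgebraic ℚ (x : ℂ) := (mem_algebraicClosure_iff).1 x.2

theorem alg_roots (F : Polynomial QA) (x : ℂ) (hx : x ∈ (F.map (algebraMap QA ℂ)).roots) :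
    IsAlgebraic ℚ x := by
  have h0 : F ≠ 0 := by
    rintro rfl
    simp at hx
  have h1 : IsAlgebraic QA x := by
    refine ⟨F, h0, ?_⟩
    have h2 := (Polynomial.mem_roots'.1 hx).2
    rw [Polynomial.IsRoot, Polynomial.eval_map_algebraMap] at h2
    exact h2
  have := isAlg_QA
  exact IsAlgebraic.restrictScalars ℚ h1

theorem alg_lc (F : Polynomial QA) : IsAlgebraic ℚ (F.map (algebraMap QA ℂ)).leadingCoeff := by
  rw [Polynomial.leadingCoeff_map]
  exact alg_of _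

theorem alg_g (e : ℕ) {x : ℂ} (hx : IsAlgebraic ℚ x) : IsAlgebraic ℚ ((⇑g)^[e] x) := by
  induction e with
  | zero => exact hx
  | succ e ih =>
    rw [Function.iterate_succ_apply']
    let g' : ℂ ≃ₐ[ℚ] ℂ := AlgEquiv.ofRingEquiv (f := g) (fun q => by simp)
    exact ih.algHom (g' : ℂ →ₐ[ℚ] ℂ)

theorem stab_iter (P : Pkg g) (e : ℕ) (x : P.R) : ∃ y, P.ι y = (⇑g)^[e] (P.ι x) := by
  induction e with
  | zero => exact ⟨x, rfl⟩
  | succ e ih =>
    obtain ⟨y, hy⟩ := ih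
    obtain ⟨y', hy'⟩ := P.stab y
    exact ⟨y', by rw [hy', hy, Function.iterate_succ_apply']⟩

theorem frob_iter (P : Pkg g) (e : ℕ) (x y : P.R) (h : P.ι y = (⇑g)^[e] (P.ι x)) :
    P.ψ y = P.ψ x ^ P.p ^ e := by
  induction e generalizing y with
  | zero =>
    have : y = x := P.inj h
    rw [this, pow_zero, pow_one]
  | succ e ih =>
    obtain ⟨y', hy'⟩ := stab_iter P e x
    rw [Function.iterate_succ_apply', ← hy'] at h
    rw [P.frob y' y h, ih y' hy', ← pow_mul, pow_succ]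

theorem large_fix {x : Fin 2 → ℂ} (hx0 : x ≠ 0) (hxa : ∀ a, IsAlgebraic ℚ (x a)) {e : ℕ}
    (hf : FixC g e x) : Large g fun P => ∀ r : Fin 2 → P.R, (∀ a, P.ι (r a) = x a) →
      FixK (P.p ^ e) fun a => P.ψ (r a) := by
  obtain ⟨l, hl⟩ := hf
  obtain ⟨a₀, ha₀⟩ : ∃ a, x a ≠ 0 := by
    by_contra hcon
    push Not at hcon
    exact hx0 (funext hcon)
  have hla : IsAlgebraic ℚ l := by
    have h1 : l = (⇑g)^[e] (x a₀) * (x a₀)⁻¹ := by
      rw [hl, mul_assoc, mul_inv_cancel₀ ha₀, mul_one]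
    rw [h1]
    exact (alg_g e (hxa a₀)).mul (hxa a₀).inv
  refine (large_mem (g := g) hla).mono ?_
  rintro P ⟨s, hs⟩ r hr
  refine ⟨P.ψ s, fun a => ?_⟩
  rw [← map_mul]
  refine (frob_iter P e (r a) (s * r a) ?_).symm
  rw [map_mul, hs, hr, hl]

/-! ### words -/

section words

variable {N : ℕ} {d : Fin N → ℕ}

/-- the polynomial of the points mapped to `x` by a composition -/
noncomputable def Phi {K : Type} [CommRing K] (v : Co N d → ℤ) (w : List (Fin N)) (x : Fin 2 → K) :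
    Polynomial K :=
  WP (fun e => ((v e : ℤ) : K)) w 0 * Polynomial.C (x 1) -
    WP (fun e => ((v e : ℤ) : K)) w 1 * Polynomial.C (x 0)

theorem eval_Phi {K : Type} [CommRing K] (v : Co N d → ℤ) (w : List (Fin N)) (x : Fin 2 → K)
    (u : K) : (Phi v w x).eval u = wv (fun e => ((v e : ℤ) : K)) w ![u, 1] 0 * x 1 -
      wv (fun e => ((v e : ℤ) : K)) w ![u, 1] 1 * x 0 := by
  rw [Phi, Polynomial.eval_sub, Polynomial.eval_mul, Polynomial.eval_mul, Polynomial.eval_C,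
    Polynomial.eval_C, eval_WP, eval_WP]

theorem map_Phi {K S : Type} [CommRing K] [CommRing S] (θ : K →+* S) (v : Co N d → ℤ)
    (w : List (Fin N)) (x : Fin 2 → K) : (Phi v w x).map θ = Phi v w fun a => θ (x a) := by
  rw [Phi, Polynomial.map_sub, Polynomial.map_mul, Polynomial.map_mul, Polynomial.map_C,
    Polynomial.map_C, map_WP, map_WP]
  rfl

/-- the value at infinity -/
noncomputable def PhiI {K : Type} [CommRing K] (v : Co N d → ℤ) (w : List (Fin N))
    (x : Fin 2 → K) : K :=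
  wv (fun e => ((v e : ℤ) : K)) w ![1, 0] 0 * x 1 - wv (fun e => ((v e : ℤ) : K)) w ![1, 0] 1 * x 0

theorem map_PhiI {K S : Type} [CommRing K] [CommRing S] (θ : K →+* S) (v : Co N d → ℤ)
    (w : List (Fin N)) (x : Fin 2 → K) : θ (PhiI v w x) = PhiI v w fun a => θ (x a) := by
  have h1 := wv_nat θ (fun e => ((v e : ℤ) : K)) w ![1, 0]
  have h2 : (fun a => θ ((![1, 0] : Fin 2 → K) a)) = ![1, 0] := by
    funext a
    fin_cases a <;> simp
  simp only [map_intCast] at h1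
  rw [h2] at h1
  rw [PhiI, PhiI, map_sub, map_mul, map_mul, h1]

theorem large_word (b : Bool) (v : Co N d → ℤ) {x : Fin 2 → ℂ}
    (hxa : ∀ a, IsAlgebraic ℚ (x a)) (e : ℕ) (w : List (Fin N))
    (h : ∀ y : Fin 2 → ℂ, Ok b y → FixC g e y → ¬ Same (wv (fun t => ((v t : ℤ) : ℂ)) w y) x) :
    Large g fun P => ∀ r : Fin 2 → P.R, (∀ a, P.ι (r a) = x a) →
      ∀ y : Fin 2 → AlgebraicClosure (ZMod P.p), Ok b y → FixK (P.p ^ e) y →
        ¬ Same (wv (fun t => ((v t : ℤ) : AlgebraicClosure (ZMod P.p))) w y) fun a => P.ψ (r a) := by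
  classical
  have hg0 : (⇑g)^[e] 0 = 0 := by
    have : ∀ n, (⇑g)^[n] (0 : ℂ) = 0 := by
      intro n
      induction n with
      | zero => rfl
      | succ n ih => rw [Function.iterate_succ_apply', ih, map_zero]
    exact this e
  have hg1 : (⇑g)^[e] 1 = 1 := by
    have : ∀ n, (⇑g)^[n] (1 : ℂ) = 1 := by
      intro n
      induction n with
      | zero => rfl
      | succ n ih => rw [Function.iterate_succ_apply', ih, map_one]
    exact this e
  have hroot : ∀ u : ℂ, (Phi v w x).eval u = 0 → (⇑g)^[e] u ≠ u := by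
    intro u hu hfix
    refine h ![u, 1] (ok_X1 b u) ⟨1, fun a => ?_⟩ ?_
    · fin_cases a
      · change (⇑g)^[e] u = 1 * u
        rw [hfix, one_mul]
      · change (⇑g)^[e] 1 = 1 * 1
        rw [hg1, one_mul]
    · rw [eval_Phi, sub_eq_zero] at hu
      exact hu
  have hne : Phi v w x ≠ 0 := by
    intro h1
    exact hroot 0 (by rw [h1, Polynomial.eval_zero]) hg0
  let x' : Fin 2 → QA := fun a => ⟨x a, (mem_algebraicClosure_iff).2 (hxa a)⟩
  have hx' : Phi v w x = (Phi v w x').map (algebraMap QA ℂ) := by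
    rw [map_Phi]
    rfl
  have hroots : ∀ u ∈ (Phi v w x).roots, IsAlgebraic ℚ u := by
    intro u hu
    rw [hx'] at hu
    exact alg_roots _ u hu
  have hlc : IsAlgebraic ℚ (Phi v w x).leadingCoeff := by
    rw [hx']
    exact alg_lc _
  have hI : IsAlgebraic ℚ (PhiI v w x) := by
    have h1 : PhiI v w x = algebraMap QA ℂ (PhiI v w x') := by
      rw [map_PhiI]
      rfl
    rw [h1]
    exact alg_of _
  have L1 := large_roots (g := g) hne hroots hlc
  have L2 : Large g fun P => ∀ u : {u // u ∈ (Phi v w x).roots}, ∀ r,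
      P.ι r = (⇑g)^[e] u.1 - u.1 → P.ψ r ≠ 0 := by
    have : Finite {u // u ∈ (Phi v w x).roots} := by
      have := (Phi v w x).roots.toFinset.finite_toSet
      refine Set.Finite.subset this ?_
      intro x hx
      exact Multiset.mem_toFinset.2 hx
    refine Large.all fun u => large_ne ?_ ?_
    · exact (alg_g e (hroots u.1 u.2)).sub (hroots u.1 u.2)
    · exact sub_ne_zero.2 (hroot u.1 ((Polynomial.mem_roots hne).1 u.2))
  have L3 : Large g fun P => b = false → ∀ r, P.ι r = PhiI v w x → P.ψ r ≠ 0 := by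
    cases b with
    | true => exact Large.of fun P h => by simp at h
    | false =>
      refine (large_ne (g := g) hI ?_).mono fun P hP _ => hP
      intro h1
      refine h ![1, 0] (ok_X0 0) ⟨1, fun a => ?_⟩ ?_
      · fin_cases a
        · change (⇑g)^[e] 1 = 1 * 1
          rw [hg1, one_mul]
        · change (⇑g)^[e] 0 = 1 * 0
          rw [hg0, mul_zero]
      · exact sub_eq_zero.1 h1
  refine ((L1.and L2).and L3).mono ?_
  rintro P ⟨⟨h1, h2⟩, h3⟩ r hr y hy hyf hS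
  have hrx : (fun a => P.ι (r a)) = x := funext hr
  obtain ⟨D, hD⟩ := wv_smul (fun t => ((v t : ℤ) : AlgebraicClosure (ZMod P.p))) w
  by_cases hy1 : y 1 = 0
  · have hb := b_false hy hy1
    have hy0 := z0_ne hy.1 hy1
    rw [nrm_zero hy1, hD] at hS
    have hS' := Same.smul (l := y 0 ^ D) (l' := 1) (z' := fun a => P.ψ (r a)) (pow_ne_zero _ hy0)
      one_ne_zero (by simpa only [one_mul] using hS)
    refine h3 hb (PhiI v w r) ?_ ?_
    · rw [map_PhiI, hrx]
    · rw [map_PhiI]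
      exact sub_eq_zero.2 hS'
  · obtain ⟨l, hl⟩ := hyf
    obtain ⟨u, hu⟩ : ∃ u, u = y 0 / y 1 := ⟨_, rfl⟩
    have huq : u ^ P.p ^ e = u := by
      rw [hu, div_pow, hl 0, hl 1]
      have hl0 : l ≠ 0 := by
        rintro rfl
        have := hl 1
        rw [zero_mul] at this
        exact hy1 (pow_eq_zero_iff (pow_ne_zero _ P.hp.out.ne_zero) |>.1 this)
      field_simp
    have e1 := nrm_one hy1
    rw [← hu] at e1
    rw [e1, hD] at hS
    have hS' := Same.smul (l := y 1 ^ D) (l' := 1) (z' := fun a => P.ψ (r a)) (pow_ne_zero _ hy1)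
      one_ne_zero (by simpa only [one_mul] using hS)
    have hev : ((Phi v w r).map P.ψ).eval u = 0 := by
      rw [map_Phi, eval_Phi]
      exact sub_eq_zero.2 hS'
    obtain ⟨ρ, hρ, hρu⟩ := (h1 (Phi v w r) (by rw [map_Phi, hrx])).2 u hev
    obtain ⟨y', hy'⟩ := stab_iter P e ρ
    refine h2 ⟨P.ι ρ, (Polynomial.mem_roots hne).2 hρ⟩ (y' - ρ) ?_ ?_
    · rw [map_sub, hy']
    · rw [map_sub, frob_iter P e ρ y' hy', hρu, huq, sub_self]

/-- normalized critical points -/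
def CR (b : Bool) (v : Co N d → ℤ) (i : Fin N) : Set (Fin 2 → ℂ) :=
  {x | (∃ u, (JP (fun e => ((v e : ℤ) : ℂ)) i).eval u = 0 ∧ x = ![u, 1]) ∨
    (b = false ∧ x = ![1, 0] ∧ J (fun e => ((v e : ℤ) : ℂ)) i x = 0)}

theorem CR_finite (b : Bool) (v : Co N d → ℤ) (i : Fin N)
    (h : JP (fun e => ((v e : ℤ) : ℂ)) i ≠ 0) : (CR b v i).Finite := by
  have h1 : (CR b v i) ⊆ ((fun u : ℂ => (![u, 1] : Fin 2 → ℂ)) ''
      {u | (JP (fun e => ((v e : ℤ) : ℂ)) i).eval u = 0}) ∪ {![1, 0]} := by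
    rintro x (⟨u, hu, rfl⟩ | ⟨-, rfl, -⟩)
    · exact Or.inl ⟨u, hu, rfl⟩
    · exact Or.inr rfl
  refine Set.Finite.subset (Set.Finite.union (Set.Finite.image _ ?_) (Set.finite_singleton _)) h1
  exact Polynomial.finite_setOfPred_isRoot h

theorem CR_alg (b : Bool) (v : Co N d → ℤ) (i : Fin N)
    (h : JP (fun e => ((v e : ℤ) : ℂ)) i ≠ 0) (x : Fin 2 → ℂ) (hx : x ∈ CR b v i) (a : Fin 2) :
    IsAlgebraic ℚ (x a) := by
  rcases hx with ⟨u, hu, rfl⟩ | ⟨-, rfl, -⟩
  · fin_cases a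
    · have h1 : u ∈ ((JP (fun e => ((v e : ℤ) : QA)) i).map (algebraMap QA ℂ)).roots := by
        rw [map_JP]
        exact (Polynomial.mem_roots h).2 hu
      exact alg_roots _ u h1
    · exact isAlgebraic_one
  · fin_cases a
    · exact isAlgebraic_one
    · exact isAlgebraic_zero

theorem CR_ok (b : Bool) (v : Co N d → ℤ) (i : Fin N) (x : Fin 2 → ℂ) (hx : x ∈ CR b v i) :
    Ok b x ∧ J (fun e => ((v e : ℤ) : ℂ)) i x = 0 := by
  rcases hx with ⟨u, hu, rfl⟩ | ⟨hb, rfl, h⟩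
  · exact ⟨ok_X1 b u, by rw [← eval_JP]; exact hu⟩
  · subst hb
    exact ⟨ok_X0 0, h⟩

theorem J_int {K S : Type} [CommRing K] [CommRing S] (θ : K →+* S) (v : Co N d → ℤ) (i : Fin N) :
    θ (J (fun e => ((v e : ℤ) : K)) i ![1, 0]) = J (fun e => ((v e : ℤ) : S)) i ![1, 0] := by
  have h := J_nat θ (fun e => ((v e : ℤ) : K)) i ![1, 0]
  have h2 : (fun a => θ ((![1, 0] : Fin 2 → K) a)) = ![1, 0] := by
    funext a
    fin_cases a <;> simp
  simp only [map_intCast] at h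
  rw [h2] at h
  exact h.symm

theorem large_crit (b : Bool) (v : Co N d → ℤ) (i : Fin N)
    (h : JP (fun e => ((v e : ℤ) : ℂ)) i ≠ 0) : Large g fun P =>
      JP (fun e => ((v e : ℤ) : AlgebraicClosure (ZMod P.p))) i ≠ 0 ∧
      ∀ z : Fin 2 → AlgebraicClosure (ZMod P.p), Ok b z →
        J (fun e => ((v e : ℤ) : AlgebraicClosure (ZMod P.p))) i z = 0 →
        ∃ r : Fin 2 → P.R, (fun a => P.ι (r a)) ∈ CR b v i ∧
          ∃ l, l ≠ 0 ∧ z = fun a => l * P.ψ (r a) := by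
  have hmap : JP (fun e => ((v e : ℤ) : ℂ)) i =
      (JP (fun e => ((v e : ℤ) : QA)) i).map (algebraMap QA ℂ) := by
    rw [map_JP]
  have L1 := large_roots (g := g) h (fun x hx => by
    rw [hmap] at hx
    exact alg_roots _ x hx) (by
    rw [hmap]
    exact alg_lc _)
  have L2 : Large g fun P => J (fun e => ((v e : ℤ) : ℂ)) i ![1, 0] ≠ 0 →
      ∀ r, P.ι r = J (fun e => ((v e : ℤ) : ℂ)) i ![1, 0] → P.ψ r ≠ 0 := by
    by_cases h1 : J (fun e => ((v e : ℤ) : ℂ)) i ![1, 0] = 0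
    · exact Large.of fun P h2 => absurd h1 h2
    · refine (large_ne (g := g) ?_ h1).mono fun P hP _ => hP
      have h2 := J_int (algebraMap QA ℂ) v i
      rw [← h2]
      exact alg_of _
  refine (L1.and L2).mono ?_
  rintro P ⟨h1, h2⟩
  have h3 := h1 (JP (fun e => ((v e : ℤ) : P.R)) i) (map_JP P.ι v i)
  rw [map_JP] at h3
  refine ⟨h3.1, fun z hz hJ => ?_⟩
  by_cases hz1 : z 1 = 0
  · have hb := b_false hz hz1
    subst hb
    have h0 := z0_ne hz.1 hz1
    have e1 := nrm_zero hz1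
    have hJ' := hJ
    rw [e1, J_smul] at hJ'
    have h4 := (mul_eq_zero.1 hJ').resolve_left (pow_ne_zero _ h0)
    have h5 : J (fun e => ((v e : ℤ) : ℂ)) i ![1, 0] = 0 := by
      by_contra hne
      refine h2 hne (J (fun e => ((v e : ℤ) : P.R)) i ![1, 0]) (J_int P.ι v i) ?_
      rw [J_int P.ψ v i]
      exact h4
    refine ⟨![1, 0], Or.inr ⟨rfl, ?_, ?_⟩, z 0, h0, ?_⟩
    · funext a
      fin_cases a <;> simp
    · have e2 : (fun a => P.ι ((![1, 0] : Fin 2 → P.R) a)) = ![1, 0] := by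
        funext a
        fin_cases a <;> simp
      rw [e2]
      exact h5
    · rw [e1]
      funext a
      fin_cases a <;> simp
  · obtain ⟨u, hu⟩ : ∃ u, u = z 0 / z 1 := ⟨_, rfl⟩
    have e1 := nrm_one hz1
    rw [← hu] at e1
    have hJ' := hJ
    rw [e1, J_smul] at hJ'
    have h4 := (mul_eq_zero.1 hJ').resolve_left (pow_ne_zero _ hz1)
    rw [← eval_JP] at h4
    obtain ⟨ρ, hρ, hρu⟩ := h3.2 u h4
    refine ⟨![ρ, 1], Or.inl ⟨P.ι ρ, hρ, ?_⟩, z 1, hz1, ?_⟩
    · funext a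
      fin_cases a <;> simp
    · rw [e1]
      funext a
      fin_cases a <;> simp [hρu]

/-- a form which vanishes at all points `(u, 1)` vanishes everywhere -/
theorem J_zero (v : Co N d → ℤ) (i : Fin N) (h : JP (fun e => ((v e : ℤ) : ℂ)) i = 0)
    (z : Fin 2 → ℂ) : J (fun e => ((v e : ℤ) : ℂ)) i z = 0 := by
  have h1 : ∀ z : Fin 2 → ℂ, z 1 ≠ 0 → J (fun e => ((v e : ℤ) : ℂ)) i z = 0 := by
    intro z hz
    have e1 := nrm_one hz
    rw [e1, J_smul, ← eval_JP, h, Polynomial.eval_zero, mul_zero]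
  by_cases hz : z 1 = 0
  · let Q : Polynomial ℂ := J (fun e => Polynomial.C ((v e : ℤ) : ℂ)) i ![1, Polynomial.X]
    have hQ : ∀ t : ℂ, Q.eval t = J (fun e => ((v e : ℤ) : ℂ)) i ![1, t] := by
      intro t
      have h2 := J_nat (Polynomial.evalRingHom t) (fun e => Polynomial.C ((v e : ℤ) : ℂ)) i
        ![1, Polynomial.X]
      have h3 : (fun a => (Polynomial.evalRingHom t) ((![1, Polynomial.X] :
          Fin 2 → Polynomial ℂ) a)) = ![1, t] := by
        funext a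
        fin_cases a <;> simp
      rw [h3] at h2
      simp only [Polynomial.coe_evalRingHom, Polynomial.eval_C] at h2
      exact h2.symm
    have hQ0 : Q * Polynomial.X = 0 := by
      apply Polynomial.funext
      intro t
      rw [Polynomial.eval_mul, Polynomial.eval_X, Polynomial.eval_zero, hQ]
      by_cases ht : t = 0
      · rw [ht, mul_zero]
      · rw [h1 ![1, t] (by simpa using ht), zero_mul]
    have hQ1 : Q = 0 := (mul_eq_zero.1 hQ0).resolve_right Polynomial.X_ne_zero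
    have h4 := hQ 0
    rw [hQ1, Polynomial.eval_zero] at h4
    rw [nrm_zero hz, J_smul, ← h4, mul_zero]
  · exact h1 z hz

/-- **Reduction.** -/
theorem red (b : Bool) (m : ℕ) (v : Co N d → ℤ)
    (h0 : ∀ i (z : Fin 2 → ℂ), Ok b z → Ok b (pt (bs fun e => ((v ⟨i, e⟩ : ℤ) : ℂ)) z))
    (h1 : ∀ i (z : Fin 2 → ℂ), Ok b z → J (fun e => ((v e : ℤ) : ℂ)) i z = 0 →
      ∃ e, 1 ≤ e ∧ FixC g e z ∧ ∀ y : Fin 2 → ℂ, Ok b y → FixC g e y →
        ∀ w : List (Fin N), w.length = m → ¬ Same (wv (fun e => ((v e : ℤ) : ℂ)) w y) z)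
    (B : ℕ) : ∃ (p : ℕ) (_ : Fact p.Prime), B < p ∧
      (∀ i, JP (fun e => ((v e : ℤ) : AlgebraicClosure (ZMod p))) i ≠ 0) ∧
      ∀ i (z : Fin 2 → AlgebraicClosure (ZMod p)), Ok b z →
        J (fun e => ((v e : ℤ) : AlgebraicClosure (ZMod p))) i z = 0 →
        ∃ e, 1 ≤ e ∧ FixK (p ^ e) z ∧
          ∀ y : Fin 2 → AlgebraicClosure (ZMod p), Ok b y → FixK (p ^ e) y →
            ∀ w : List (Fin N), w.length = m →
              ¬ Same (wv (fun e => ((v e : ℤ) : AlgebraicClosure (ZMod p))) w y) z := by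
  classical
  have hJ0 : ∀ i, JP (fun e => ((v e : ℤ) : ℂ)) i ≠ 0 := by
    intro i hi
    have hok : ∀ n, Ok b (wv (fun e => ((v e : ℤ) : ℂ)) (List.replicate n i) ![0, 1]) := by
      intro n
      induction n with
      | zero => exact ok_X1 b 0
      | succ n ih => exact h0 i _ ih
    obtain ⟨e, -, -, h2⟩ := h1 i _ (hok m) (J_zero v i hi _)
    have hg : ∀ n, (⇑g)^[n] (0 : ℂ) = 0 ∧ (⇑g)^[n] (1 : ℂ) = 1 := by
      intro n
      induction n with
      | zero => exact ⟨rfl, rfl⟩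
      | succ n ih =>
        rw [Function.iterate_succ_apply', Function.iterate_succ_apply', ih.1, ih.2]
        exact ⟨map_zero g, map_one g⟩
    refine h2 ![0, 1] (ok_X1 b 0) ⟨1, fun a => ?_⟩ (List.replicate m i) (by simp) ?_
    · fin_cases a
      · change (⇑g)^[e] 0 = 1 * 0
        rw [(hg e).1, mul_zero]
      · change (⇑g)^[e] 1 = 1 * 1
        rw [(hg e).2, one_mul]
    · exact mul_comm _ _
  have h1' : ∀ i (x : CR b v i), ∃ e, 1 ≤ e ∧ FixC g e x.1 ∧ ∀ y : Fin 2 → ℂ, Ok b y →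
      FixC g e y → ∀ w : List (Fin N), w.length = m →
        ¬ Same (wv (fun e => ((v e : ℤ) : ℂ)) w y) x.1 := fun i x =>
    h1 i x.1 (CR_ok b v i x.1 x.2).1 (CR_ok b v i x.1 x.2).2
  choose e he hfix hno using h1'
  have hfin : Finite (List.Vector (Fin N) m) := inferInstance
  have L : Large g fun P => ∀ i, (JP (fun e => ((v e : ℤ) : AlgebraicClosure (ZMod P.p))) i ≠ 0 ∧
      ∀ z : Fin 2 → AlgebraicClosure (ZMod P.p), Ok b z →
        J (fun e => ((v e : ℤ) : AlgebraicClosure (ZMod P.p))) i z = 0 →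
        ∃ r : Fin 2 → P.R, (fun a => P.ι (r a)) ∈ CR b v i ∧
          ∃ l, l ≠ 0 ∧ z = fun a => l * P.ψ (r a)) ∧
      ∀ x : CR b v i, (∀ r : Fin 2 → P.R, (∀ a, P.ι (r a) = x.1 a) →
        FixK (P.p ^ (e i x)) fun a => P.ψ (r a)) ∧
        ∀ w : List.Vector (Fin N) m, ∀ r : Fin 2 → P.R, (∀ a, P.ι (r a) = x.1 a) →
          ∀ y : Fin 2 → AlgebraicClosure (ZMod P.p), Ok b y → FixK (P.p ^ (e i x)) y →
            ¬ Same (wv (fun t => ((v t : ℤ) : AlgebraicClosure (ZMod P.p))) w.1 y)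
              fun a => P.ψ (r a) := by
    refine Large.all fun i => ?_
    have : Finite (CR b v i) := CR_finite b v i (hJ0 i)
    refine (large_crit b v i (hJ0 i)).and (Large.all fun x => ?_)
    refine (large_fix (CR_ok b v i x.1 x.2).1.1 (CR_alg b v i (hJ0 i) x.1 x.2)
      (hfix i x)).and (Large.all fun w => ?_)
    exact large_word b v (CR_alg b v i (hJ0 i) x.1 x.2) (e i x) w.1
      fun y hy hyf => hno i x y hy hyf w.1 w.2
  obtain ⟨P, hP, hQ⟩ := L.ex B
  refine ⟨P.p, P.hp, hP, fun i => (hQ i).1.1, fun i z hz hJ => ?_⟩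
  obtain ⟨⟨-, h2⟩, h3⟩ := hQ i
  obtain ⟨r, hr, l, hl, hzl⟩ := h2 z hz hJ
  obtain ⟨h4, h5⟩ := h3 ⟨_, hr⟩
  refine ⟨e i ⟨_, hr⟩, he i ⟨_, hr⟩, ?_, fun y hy hyf w hw hS => ?_⟩
  · obtain ⟨l', hl'⟩ := h4 r fun a => rfl
    refine ⟨l ^ P.p ^ (e i ⟨_, hr⟩) * l' * l⁻¹, fun a => ?_⟩
    have h6 : l⁻¹ * l = 1 := inv_mul_cancel₀ hl
    rw [hzl]
    change (l * P.ψ (r a)) ^ P.p ^ (e i ⟨_, hr⟩) =
      l ^ P.p ^ (e i ⟨_, hr⟩) * l' * l⁻¹ * (l * P.ψ (r a))
    rw [mul_pow]
    have h7 := hl' a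
    simp only at h7
    rw [h7]
    linear_combination (-(l ^ P.p ^ (e i ⟨_, hr⟩) * l' * P.ψ (r a))) * h6
  · apply h5 ⟨w, hw⟩ r (fun a => rfl) y hy hyf
    rw [hzl] at hS
    exact Same.smul (l := 1) (l' := l) one_ne_zero hl (by simpa only [one_mul] using hS)

end words

end Pool.Agent.V7H60.GC
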